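import Mathlib

/-!
# Rainbow directed paths: basic notions

The colour classes of a `d`-regular digraph properly coloured with `d` colours are permutations
`π c` of the vertex set.  A walk is given by its start vertex and its list of colours.
-/

set_option linter.unusedSectionVars false

namespace Pool.Agent.P.MP_0c87c4_co.Asym

open Finset

variable {V C : Type*} (π : C → Equiv.Perm V)

/-- end vertex of the walk -/
def endp : V → List C → V
  | x, [] => x
  | x, c :: cs => endp (π c x) cs

/-- vertices of the walk after the start -/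
def tl : V → List C → List V
  | _, [] => []
  | x, c :: cs => π c x :: tl (π c x) cs

/-- edges of the walk as pairs (colour, head) -/
def ed : V → List C → List (C × V)
  | _, [] => []
  | x, c :: cs => (c, π c x) :: ed (π c x) cs

@[simp] lemma endp_nil (x : V) : endp π x [] = x := rfl
@[simp] lemma endp_cons (x : V) (c : C) (cs : List C) :
    endp π x (c :: cs) = endp π (π c x) cs := rfl
@[simp] lemma tl_nil (x : V) : tl π x [] = [] := rfl
@[simp] lemma tl_cons (x : V) (c : C) (cs : List C) :
    tl π x (c :: cs) = π c x :: tl π (π c x) cs := rfl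
@[simp] lemma ed_nil (x : V) : ed π x [] = [] := rfl
@[simp] lemma ed_cons (x : V) (c : C) (cs : List C) :
    ed π x (c :: cs) = (c, π c x) :: ed π (π c x) cs := rfl

lemma endp_append (x : V) (a b : List C) : endp π x (a ++ b) = endp π (endp π x a) b := by
  induction a generalizing x with
  | nil => rfl
  | cons c a ih => simp [ih]

lemma tl_append (x : V) (a b : List C) : tl π x (a ++ b) = tl π x a ++ tl π (endp π x a) b := by
  induction a generalizing x with
  | nil => rfl
  | cons c a ih => simp [ih]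

lemma ed_append (x : V) (a b : List C) : ed π x (a ++ b) = ed π x a ++ ed π (endp π x a) b := by
  induction a generalizing x with
  | nil => rfl
  | cons c a ih => simp [ih]

@[simp] lemma length_tl (x : V) (a : List C) : (tl π x a).length = a.length := by
  induction a generalizing x with
  | nil => rfl
  | cons c a ih => simp [ih]

@[simp] lemma length_ed (x : V) (a : List C) : (ed π x a).length = a.length := by
  induction a generalizing x with
  | nil => rfl
  | cons c a ih => simp [ih]

@[simp] lemma map_fst_ed (x : V) (a : List C) : (ed π x a).map Prod.fst = a := by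
  induction a generalizing x with
  | nil => rfl
  | cons c a ih => simp [ih]

@[simp] lemma map_snd_ed (x : V) (a : List C) : (ed π x a).map Prod.snd = tl π x a := by
  induction a generalizing x with
  | nil => rfl
  | cons c a ih => simp [ih]

lemma endp_mem (x : V) (a : List C) : endp π x a = x ∨ endp π x a ∈ tl π x a := by
  induction a generalizing x with
  | nil => simp
  | cons c a ih =>
    right
    rcases ih (π c x) with h | h
    · simp [h]
    · simp [h]

lemma mem_ed (x : V) (a : List C) (e : C) (w : V) (h : (e, w) ∈ ed π x a) :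
    ∃ l₁ l₂, a = l₁ ++ e :: l₂ ∧ π e (endp π x l₁) = w := by
  induction a generalizing x with
  | nil => simp at h
  | cons c a ih =>
    simp only [ed_cons, List.mem_cons, Prod.mk.injEq] at h
    rcases h with ⟨rfl, rfl⟩ | h
    · exact ⟨[], a, rfl, rfl⟩
    · obtain ⟨l₁, l₂, rfl, h2⟩ := ih _ h
      exact ⟨c :: l₁, l₂, rfl, h2⟩

/-- a rainbow path from `x` with colour list `cs`, all later vertices in `Y`, all colours in `R` -/
structure Pth (x : V) (cs : List C) (Y : Set V) (R : Set C) : Prop where
  cn : cs.Nodup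
  vn : (tl π x cs).Nodup
  hx : x ∉ tl π x cs
  cm : ∀ c ∈ cs, c ∈ R
  vm : ∀ v ∈ tl π x cs, v ∈ Y

variable {π}

lemma Pth.nil (x : V) (Y : Set V) (R : Set C) : Pth π x [] Y R :=
  ⟨by simp, by simp, by simp, by simp, by simp⟩

lemma Pth.mono {x : V} {cs : List C} {Y Y' : Set V} {R R' : Set C} (h : Pth π x cs Y R)
    (hY : ∀ v ∈ Y, v ∈ Y') (hR : ∀ c ∈ R, c ∈ R') : Pth π x cs Y' R' :=
  ⟨h.cn, h.vn, h.hx, fun c hc => hR c (h.cm c hc), fun v hv => hY v (h.vm v hv)⟩

lemma Pth.append {x : V} {a b : List C} {Y₁ Y₂ Y : Set V} {R₁ R₂ R : Set C}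
    (ha : Pth π x a Y₁ R₁) (hb : Pth π (endp π x a) b Y₂ R₂)
    (hc : ∀ c ∈ a, c ∉ R₂) (hv : ∀ v ∈ tl π x a, v ∉ Y₂) (hx : x ∉ Y₂)
    (h₁ : ∀ v ∈ Y₁, v ∈ Y) (h₂ : ∀ v ∈ Y₂, v ∈ Y) (h₃ : ∀ c ∈ R₁, c ∈ R) (h₄ : ∀ c ∈ R₂, c ∈ R) :
    Pth π x (a ++ b) Y R := by
  refine ⟨?_, ?_, ?_, ?_, ?_⟩
  · refine List.nodup_append.2 ⟨ha.cn, hb.cn, ?_⟩
    rintro c h1 c' h2 rfl
    exact hc c h1 (hb.cm c h2)
  · rw [tl_append]
    refine List.nodup_append.2 ⟨ha.vn, hb.vn, ?_⟩
    rintro c h1 c' h2 rfl
    exact hv c h1 (hb.vm c h2)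
  · rw [tl_append, List.mem_append]
    rintro (h | h)
    · exact ha.hx h
    · exact hx (hb.vm x h)
  · intro c h
    rcases List.mem_append.1 h with h | h
    · exact h₃ c (ha.cm c h)
    · exact h₄ c (hb.cm c h)
  · intro v h
    rw [tl_append] at h
    rcases List.mem_append.1 h with h | h
    · exact h₁ v (ha.vm v h)
    · exact h₂ v (hb.vm v h)

lemma Pth.snoc {x : V} {a : List C} {Y : Set V} {R : Set C} (ha : Pth π x a Y R) {c : C}
    (hcR : c ∈ R) (hc : c ∉ a) (hY : π c (endp π x a) ∈ Y) (hv : π c (endp π x a) ∉ tl π x a)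
    (hx : π c (endp π x a) ≠ x) : Pth π x (a ++ [c]) Y R := by
  refine ⟨?_, ?_, ?_, ?_, ?_⟩
  · refine List.nodup_append.2 ⟨ha.cn, by simp, ?_⟩
    rintro c' h1 c'' h2 rfl
    simp only [List.mem_singleton] at h2
    exact hc (h2 ▸ h1)
  · rw [tl_append]
    refine List.nodup_append.2 ⟨ha.vn, by simp, ?_⟩
    rintro c' h1 c'' h2 rfl
    simp only [tl_cons, tl_nil, List.mem_singleton] at h2
    exact hv (h2 ▸ h1)
  · rw [tl_append, List.mem_append]
    rintro (h | h)
    · exact ha.hx h
    · simp only [tl_cons, tl_nil, List.mem_singleton] at h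
      exact hx h.symm
  · intro c' h
    rcases List.mem_append.1 h with h | h
    · exact ha.cm c' h
    · simp only [List.mem_singleton] at h
      exact h ▸ hcR
  · intro v h
    rw [tl_append] at h
    rcases List.mem_append.1 h with h | h
    · exact ha.vm v h
    · simp only [tl_cons, tl_nil, List.mem_singleton] at h
      exact h ▸ hY

@[simp] lemma endp_snoc (x : V) (a : List C) (c : C) :
    endp π x (a ++ [c]) = π c (endp π x a) := by
  rw [endp_append]; rfl

lemma tl_snoc (x : V) (a : List C) (c : C) :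
    tl π x (a ++ [c]) = tl π x a ++ [π c (endp π x a)] := by
  rw [tl_append]; rfl

/-! ### Counting -/

variable (π)
variable [DecidableEq V] [DecidableEq C]

/-- number of colours in `R` leading from `x` into `S` -/
def deg (x : V) (R : Finset C) (S : Finset V) : ℕ := (R.filter fun c => π c x ∈ S).card

variable {π}

lemma deg_le_card (hL : ∀ x, Function.Injective fun c => π c x) (x : V) (R : Finset C)
    (S : Finset V) : deg π x R S ≤ S.card := by
  unfold deg
  refine card_le_card_of_injOn (fun c => π c x) (fun c hc => ?_) (fun c _ c' _ h => hL x h)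
  exact (mem_filter.1 hc).2

omit [DecidableEq C] in
lemma deg_le_col (x : V) (R : Finset C) (S : Finset V) : deg π x R S ≤ R.card :=
  card_filter_le _ _

omit [DecidableEq C] in
lemma deg_mono (x : V) {R R' : Finset C} {S S' : Finset V} (hR : R ⊆ R') (hS : S ⊆ S') :
    deg π x R S ≤ deg π x R' S' := by
  unfold deg
  refine card_le_card fun c hc => ?_
  rw [mem_filter] at hc ⊢
  exact ⟨hR hc.1, hS hc.2⟩

lemma deg_le_add (x : V) (R : Finset C) {S S₁ S₂ : Finset V}
    (h : ∀ v ∈ S, v ∈ S₁ ∨ v ∈ S₂) : deg π x R S ≤ deg π x R S₁ + deg π x R S₂ := by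
  unfold deg
  refine le_trans (card_le_card fun c hc => ?_) (card_union_le _ _)
  simp only [mem_filter, mem_union] at hc ⊢
  rcases h _ hc.2 with h | h
  · exact Or.inl ⟨hc.1, h⟩
  · exact Or.inr ⟨hc.1, h⟩

omit [DecidableEq C] in
lemma deg_add_compl [Fintype V] (x : V) (R : Finset C) (S : Finset V) :
    deg π x R S + deg π x R Sᶜ = R.card := by
  unfold deg
  rw [← card_filter_add_card_filter_not (s := R) (fun c => π c x ∈ S)]
  simp

lemma deg_le_sdiff (x : V) (R F : Finset C) (S : Finset V) :
    deg π x R S ≤ deg π x (R \ F) S + F.card := by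
  unfold deg
  refine le_trans (card_le_card fun c hc => ?_) (card_union_le _ _)
  simp only [mem_filter, mem_union, mem_sdiff] at hc ⊢
  by_cases h : c ∈ F
  · exact Or.inr h
  · exact Or.inl ⟨⟨hc.1, h⟩, hc.2⟩

omit [DecidableEq C] in
lemma sum_deg_le (W : Finset V) (R : Finset C) (S : Finset V) :
    ∑ x ∈ W, deg π x R S ≤ S.card * R.card := by
  unfold deg
  simp only [card_filter]
  rw [sum_comm, mul_comm, ← smul_eq_mul, ← sum_const]
  refine sum_le_sum fun c _ => ?_
  rw [← card_filter]
  refine card_le_card_of_injOn (fun x => π c x) (fun x hx => ?_) (fun x _ x' _ h => (π c).injective h)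
  exact (mem_filter.1 hx).2

/-- the image of the colours leading into `S` -/
lemma card_image_deg (hL : ∀ x, Function.Injective fun c => π c x) (x : V) (R : Finset C)
    (S : Finset V) :
    ((R.filter fun c => π c x ∈ S).image fun c => π c x).card = deg π x R S :=
  card_image_of_injective _ (hL x)

omit [DecidableEq V] [DecidableEq C] in
lemma symm_inj (hL : ∀ x, Function.Injective fun c => π c x) (y : V) :
    Function.Injective fun c => (π c).symm y := by
  intro c c' h
  simp only at h
  apply hL ((π c).symm y)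
  simp only
  rw [Equiv.apply_symm_apply, h, Equiv.apply_symm_apply]

/-! ### Greedy hitting sets -/

lemma exists_hit_elem {ι Ω : Type*} [DecidableEq Ω] (U : Finset Ω) (O : ι → Finset Ω) (q : ℕ)
    (I : Finset ι) (hI : I.Nonempty) (hsub : ∀ i ∈ I, O i ⊆ U) (hne : ∀ i ∈ I, (O i).Nonempty)
    (hq : ∀ i ∈ I, U.card ≤ q * (O i).card) :
    ∃ e ∈ U, I.card ≤ q * (I.filter fun i => e ∈ O i).card := by
  classical
  by_contra hcon
  push Not at hcon
  obtain ⟨i₀, hi₀⟩ := hI
  obtain ⟨e₀, he₀⟩ := hne i₀ hi₀
  have hUne : U.Nonempty := ⟨e₀, hsub i₀ hi₀ he₀⟩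
  have h1 : ∑ e ∈ U, q * (I.filter fun i => e ∈ O i).card < ∑ _e ∈ U, I.card :=
    sum_lt_sum_of_nonempty hUne hcon
  have h2 : ∑ e ∈ U, (I.filter fun i => e ∈ O i).card = ∑ i ∈ I, (O i).card := by
    simp only [card_filter]
    rw [sum_comm]
    refine sum_congr rfl fun i hi => ?_
    rw [← card_filter, filter_mem_eq_inter, inter_eq_right.2 (hsub i hi)]
  rw [← mul_sum, h2, mul_sum, sum_const, smul_eq_mul] at h1
  have h3 : ∑ _i ∈ I, U.card ≤ ∑ i ∈ I, q * (O i).card := sum_le_sum hq
  rw [sum_const, smul_eq_mul] at h3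
  nlinarith

lemma exists_hit_half {ι Ω : Type*} [DecidableEq Ω] (U : Finset Ω) (O : ι → Finset Ω) (q : ℕ)
    (I : Finset ι) (hsub : ∀ i ∈ I, O i ⊆ U) (hne : ∀ i ∈ I, (O i).Nonempty)
    (hq : ∀ i ∈ I, U.card ≤ q * (O i).card) :
    ∃ H ⊆ U, H.card ≤ q ∧ 2 * (I.filter fun i => Disjoint (O i) H).card ≤ I.card := by
  classical
  have key : ∀ k : ℕ, ∃ H ⊆ U, H.card ≤ k ∧
      (2 * (I.filter fun i => Disjoint (O i) H).card ≤ I.card ∨
        2 * q * (I.filter fun i => Disjoint (O i) H).card + k * I.card ≤ 2 * q * I.card) := by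
    intro k
    induction k with
    | zero => exact ⟨∅, empty_subset _, by simp, Or.inr (by simp)⟩
    | succ k ih =>
      obtain ⟨H, hH, hc, h⟩ := ih
      by_cases h0 : 2 * (I.filter fun i => Disjoint (O i) H).card ≤ I.card
      · exact ⟨H, hH, by omega, Or.inl h0⟩
      have h := h.resolve_left h0
      set J := I.filter fun i => Disjoint (O i) H with hJ
      have hJI : J ⊆ I := filter_subset _ _
      have hJne : J.Nonempty := by
        rw [← card_pos]; omega
      obtain ⟨e, he, hcard⟩ := exists_hit_elem U O q J hJne (fun i hi => hsub i (hJI hi))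
        (fun i hi => hne i (hJI hi)) (fun i hi => hq i (hJI hi))
      refine ⟨insert e H, insert_subset he hH, (card_insert_le _ _).trans (by omega), Or.inr ?_⟩
      have h3 : (I.filter fun i => Disjoint (O i) (insert e H)).card +
          (J.filter fun i => e ∈ O i).card = J.card := by
        rw [← card_filter_add_card_filter_not (s := J) (fun i => e ∈ O i), add_comm]
        congr 2
        ext i
        simp only [hJ, mem_filter, disjoint_insert_right]
        tauto
      nlinarith
  obtain ⟨H, hH, hc, h⟩ := key q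
  refine ⟨H, hH, hc, ?_⟩
  rcases h with h | h
  · exact h
  · rcases Nat.eq_zero_or_pos q with rfl | hq0
    · rcases I.eq_empty_or_nonempty with rfl | ⟨i, hi⟩
      · simp
      · have h1 := hq i hi
        obtain ⟨e, he⟩ := hne i hi
        have : 0 < U.card := card_pos.2 ⟨e, hsub i hi he⟩
        omega
    · have : q * (2 * (I.filter fun i => Disjoint (O i) H).card) ≤ q * I.card := by nlinarith
      exact Nat.le_of_mul_le_mul_left this hq0

lemma exists_hitting {ι Ω : Type*} [DecidableEq Ω] (U : Finset Ω) (O : ι → Finset Ω) (q : ℕ)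
    (h : ℕ) (I : Finset ι) (hI : I.card < 2 ^ h) (hsub : ∀ i ∈ I, O i ⊆ U)
    (hne : ∀ i ∈ I, (O i).Nonempty) (hq : ∀ i ∈ I, U.card ≤ q * (O i).card) :
    ∃ H ⊆ U, H.card ≤ q * h ∧ ∀ i ∈ I, ∃ e ∈ O i, e ∈ H := by
  classical
  induction h generalizing I with
  | zero =>
    have : I = ∅ := by rw [← card_eq_zero]; omega
    subst this
    exact ⟨∅, empty_subset _, by simp, by simp⟩
  | succ h ih =>
    obtain ⟨H, hH, hc, hh⟩ := exists_hit_half U O q I hsub hne hq
    set J := I.filter fun i => Disjoint (O i) H with hJ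
    have hJI : J ⊆ I := filter_subset _ _
    obtain ⟨H', hH', hc', hh'⟩ := ih J (by rw [pow_succ] at hI; omega)
      (fun i hi => hsub i (hJI hi)) (fun i hi => hne i (hJI hi)) (fun i hi => hq i (hJI hi))
    refine ⟨H ∪ H', union_subset hH hH', (card_union_le _ _).trans (by nlinarith), fun i hi => ?_⟩
    by_cases hd : Disjoint (O i) H
    · obtain ⟨e, he, he'⟩ := hh' i (mem_filter.2 ⟨hi, hd⟩)
      exact ⟨e, he, mem_union_right _ he'⟩
    · obtain ⟨e, he, he'⟩ := not_disjoint_iff.1 hd
      exact ⟨e, he, mem_union_left _ he'⟩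

end Pool.Agent.P.MP_0c87c4_co.Asym
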