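import Pool.Agent.P.MP_0c87c4_co.ABasic

/-!
# Short rainbow paths in an expanding piece, and connectors
-/

set_option linter.unusedSectionVars false

namespace Pool.Agent.P.MP_0c87c4_co.Asym

open Finset

variable {V C : Type*} {π : C → Equiv.Perm V} [DecidableEq V] [DecidableEq C] [Fintype V]

lemma short_path (hL : ∀ x, Function.Injective fun c => π c x) (X Gd : Finset V) (R : Finset C)
    (hG : Gd ⊆ X) (K Λ a n₀ f g l : ℕ) (hΛ : 0 < Λ)
    (hN : X.card ≤ K * R.card)
    (hdef : ∀ x ∈ Gd, deg π x R Gdᶜ ≤ a)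
    (hexp : ∀ S ⊆ X, n₀ ≤ S.card → R.card * (X \ S).card ≤ Λ * ∑ u ∈ S, deg π u R (X \ S))
    (h1 : Λ * (f * (K + 1) + 2 + (3 * l + 7) * K + g) ≤ n₀)
    (h2 : K * R.card < g * l)
    (h3 : 2 * (a + 2 * f + 2) ≤ R.card)
    (h4 : 4 * (f * (K + 1) + 2 + (3 * l + 7) * K + n₀) ≤ R.card)
    (FV : Finset V) (FC : Finset C) (hFV : FV.card ≤ f) (hFC : FC.card ≤ f)
    (x : V) (hx : x ∈ Gd) (y : V) (hxy : x ≠ y)
    (hy : R.card ≤ 2 * deg (fun c => (π c).symm) y R X) :
    ∃ cs, cs.length ≤ l + 3 ∧ Pth π x cs {v | (v ∈ X ∧ v ∉ FV) ∨ v = y} {c | c ∈ R ∧ c ∉ FC} ∧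
      endp π x cs = y := by
  classical
  set r := R.card with hr
  set I := f * (K + 1) + 2 + (3 * l + 7) * K with hI
  have hr0 : 0 < r := by omega
  set Y : Set V := {v | v ∈ X ∧ v ∉ FV ∧ v ≠ y} with hY
  set RC : Set C := {c | c ∈ R ∧ c ∉ FC} with hRC
  set Z : ℕ → Finset V := fun i => X.filter fun w =>
    ∃ cs, cs.length ≤ i ∧ Pth π x cs Y RC ∧ endp π x cs = w with hZ
  set Z' : ℕ → Finset V := fun i => X.filter fun w =>
    ∃ cs, cs.length ≤ i ∧ Pth π x cs Y RC ∧ endp π x cs = w ∧ ∀ c ∈ cs, π c w ≠ y with hZ'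
  have hZ'Z : ∀ i, Z' i ⊆ Z i := by
    intro i w hw
    simp only [hZ, hZ', mem_filter] at hw ⊢
    obtain ⟨h, cs, h1, h2, h3, -⟩ := hw
    exact ⟨h, cs, h1, h2, h3⟩
  have hmono : ∀ i j, i ≤ j → Z' i ⊆ Z' j := by
    intro i j hij w hw
    simp only [hZ', mem_filter] at hw ⊢
    obtain ⟨h, cs, h1, h2, h3⟩ := hw
    exact ⟨h, cs, h1.trans hij, h2, h3⟩
  have hZX : ∀ i, Z i ⊆ X := fun i => filter_subset _ _
  have hstep : ∀ i ≤ l + 2, ∀ S ⊆ Z i, ∑ u ∈ S, deg π u R (X \ Z' (i + 1)) ≤ I * r := by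
    intro i hi S hS
    have hu : ∀ u ∈ S, deg π u R (X \ Z' (i + 1)) ≤ deg π u R (insert y FV) + (f + (3 * l + 7)) +
        deg (fun c => π c * π c) u R {y} := by
      intro u hu
      obtain ⟨-, q, hq1, hq2, hq3⟩ := mem_filter.1 (hS hu)
      have hsub : (R.filter fun c => π c u ∈ X \ Z' (i + 1)) ⊆
          (R.filter fun c => π c u ∈ insert y FV) ∪ (FC ∪ q.toFinset ∪
            (R.filter fun c => π c u ∈ (x :: tl π x q).toFinset) ∪
            (R.filter fun c => π c u ∈ q.toFinset.image fun c' => (π c').symm y)) ∪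
            R.filter fun c => (π c * π c) u ∈ ({y} : Finset V) := by
        intro c hc
        by_contra hno
        simp only [mem_union, mem_filter, not_or, not_and, mem_insert, List.mem_toFinset,
          List.mem_cons, mem_image, not_exists, mem_singleton, mem_sdiff,
          Equiv.Perm.coe_mul, Function.comp_apply] at hc hno
        obtain ⟨hcR, hcX, hcZ⟩ := hc
        obtain ⟨⟨n1, ⟨⟨n2, n3⟩, n4⟩, n5⟩, n6⟩ := hno
        apply hcZ
        simp only [hZ', mem_filter]
        refine ⟨hcX, q ++ [c], by simp; omega, ?_, by rw [endp_snoc, hq3], ?_⟩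
        · refine hq2.snoc ⟨hcR, n2⟩ n3 ?_ ?_ ?_
          · rw [hq3]; exact ⟨hcX, (n1 hcR).2, (n1 hcR).1⟩
          · rw [hq3]; exact (n4 hcR).2
          · rw [hq3]; exact (n4 hcR).1
        · intro c' hc' h
          rcases List.mem_append.1 hc' with h' | h'
          · exact n5 hcR c' h' (by rw [← h]; simp)
          · rw [List.mem_singleton] at h'
            subst h'
            exact n6 hcR h
      have e1 : q.toFinset.card ≤ l + 2 := (List.toFinset_card_le _).trans (by omega)
      have e2 : (R.filter fun c => π c u ∈ (x :: tl π x q).toFinset).card ≤ l + 3 :=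
        (deg_le_card hL u R _).trans ((List.toFinset_card_le _).trans (by simp; omega))
      have e3 : (R.filter fun c => π c u ∈ q.toFinset.image fun c' => (π c').symm y).card
          ≤ l + 2 := (deg_le_card hL u R _).trans (card_image_le.trans e1)
      refine (card_le_card hsub).trans ((card_union_le _ _).trans ?_)
      refine add_le_add ((card_union_le _ _).trans (add_le_add le_rfl ?_)) le_rfl
      refine (card_union_le _ _).trans ?_
      have e4 := card_union_le (FC ∪ q.toFinset)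
        (R.filter fun c => π c u ∈ (x :: tl π x q).toFinset)
      have e5 := card_union_le FC q.toFinset
      omega
    refine (sum_le_sum hu).trans ?_
    rw [sum_add_distrib, sum_add_distrib, sum_const, smul_eq_mul]
    have e1 := sum_deg_le (π := π) S R (insert y FV)
    have e2 := sum_deg_le (π := fun c => π c * π c) S R {y}
    have e3 : (insert y FV).card ≤ f + 1 := (card_insert_le _ _).trans (by omega)
    have e4 : S.card ≤ K * r := (card_le_card (hS.trans (hZX i))).trans hN
    rw [card_singleton] at e2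
    have e5 : (insert y FV).card * r ≤ (f + 1) * r := Nat.mul_le_mul_right _ e3
    have e6 : S.card * (f + (3 * l + 7)) ≤ K * r * (f + (3 * l + 7)) := Nat.mul_le_mul_right _ e4
    rw [hI]
    nlinarith
  -- the first two steps
  have hstart : n₀ ≤ (Z' 2).card := by
    set S := Z 1 ∩ Gd with hS
    have hSc : r ≤ 2 * S.card := by
      have e1 : ((R \ FC).filter fun c => π c x ∈ Gd \ insert x (insert y FV)).image
          (fun c => π c x) ⊆ S := by
        intro w hw
        obtain ⟨c, hc, rfl⟩ := mem_image.1 hw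
        simp only [mem_filter, mem_sdiff, mem_insert, not_or] at hc
        refine mem_inter.2 ⟨mem_filter.2 ⟨hG hc.2.1, [c], by simp, ?_, rfl⟩, hc.2.1⟩
        exact (Pth.nil x Y RC).snoc hc.1 (by simp) ⟨hG hc.2.1, hc.2.2.2.2, hc.2.2.2.1⟩
          (by simp) hc.2.2.1
      have e2 := card_le_card e1
      rw [card_image_deg hL] at e2
      have e3 := deg_le_sdiff (π := π) x R FC (Gd \ insert x (insert y FV))
      have e4 := deg_add_compl (π := π) x R (Gd \ insert x (insert y FV))
      have e5 : deg π x R (Gd \ insert x (insert y FV))ᶜ ≤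
          deg π x R Gdᶜ + deg π x R (insert x (insert y FV)) := by
        refine deg_le_add _ _ fun w hw => ?_
        simp only [mem_compl, mem_sdiff] at hw ⊢
        tauto
      have e6 := deg_le_card hL x R (insert x (insert y FV))
      have e7 := card_insert_le x (insert y FV)
      have e8 := card_insert_le y FV
      have e9 := hdef x hx
      omega
    have e1 : ∑ _u ∈ S, r ≤ ∑ u ∈ S, 2 * (deg π u R (X \ Z' 2) + deg π u R (Z' 2)) := by
      refine sum_le_sum fun u hu => ?_
      have e2 := hdef u (mem_inter.1 hu).2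
      have e3 := deg_add_compl (π := π) u R Gd
      have e4 : deg π u R Gd ≤ deg π u R (X \ Z' 2) + deg π u R (Z' 2) := by
        refine deg_le_add _ _ fun w hw => ?_
        have := hG hw
        simp only [mem_sdiff]
        tauto
      omega
    rw [sum_const, smul_eq_mul, ← mul_sum, sum_add_distrib] at e1
    have e2 := hstep 1 (by omega) S inter_subset_left
    have e3 := sum_deg_le (π := π) S R (Z' 2)
    by_contra hlt
    push Not at hlt
    have e4 : (Z' 2).card * r < n₀ * r := Nat.mul_lt_mul_of_pos_right hlt hr0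
    have e5 : r * r ≤ 2 * S.card * r := Nat.mul_le_mul_right _ hSc
    have e6 : 4 * (I + n₀) * r ≤ r * r := Nat.mul_le_mul_right _ h4
    nlinarith
  have hgrow : ∀ j ≤ l, (X \ Z' (2 + j)).card < n₀ ∨ g * j ≤ (Z' (2 + j)).card := by
    intro j
    induction j with
    | zero => intro _; right; simp
    | succ j ih =>
      intro hj
      by_cases h0 : (X \ Z' (2 + j)).card < n₀
      · left
        exact lt_of_le_of_lt (card_le_card (sdiff_subset_sdiff Subset.rfl
          (hmono _ _ (by omega)))) h0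
      right
      have ih' := (ih (by omega)).resolve_left h0
      push Not at h0
      set S := Z' (2 + j) with hS
      have hSn : n₀ ≤ S.card := hstart.trans (card_le_card (hmono _ _ (by omega)))
      have e1 := hexp S ((hZ'Z _).trans (hZX _)) hSn
      have e2 : ∑ u ∈ S, deg π u R (X \ S) ≤
          ∑ u ∈ S, (deg π u R (X \ Z' (2 + j + 1)) + deg π u R (Z' (2 + j + 1) \ S)) := by
        refine sum_le_sum fun u _ => deg_le_add _ _ fun w hw => ?_
        simp only [mem_sdiff] at hw ⊢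
        tauto
      rw [sum_add_distrib] at e2
      have e3 := hstep (2 + j) (by omega) S (hZ'Z _)
      have e4 := sum_deg_le (π := π) S R (Z' (2 + j + 1) \ S)
      rw [← hr] at e4
      have e5 : (Z' (2 + j + 1) \ S).card + S.card = (Z' (2 + j + 1)).card :=
        card_sdiff_add_card_eq_card (hmono _ _ (by omega))
      have e6 : g ≤ (Z' (2 + j + 1) \ S).card := by
        set m := (Z' (2 + j + 1) \ S).card
        have e7 : Λ * ∑ u ∈ S, deg π u R (X \ S) ≤ Λ * (I * r + m * r) :=
          Nat.mul_le_mul_left _ (by omega)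
        have e8 : r * n₀ ≤ r * (X \ S).card := Nat.mul_le_mul_left _ h0
        have e9 : r * (Λ * (I + g)) ≤ r * n₀ := Nat.mul_le_mul_left _ h1
        have e10 : (r * Λ) * g ≤ (r * Λ) * m := by nlinarith
        exact Nat.le_of_mul_le_mul_left e10 (Nat.mul_pos hr0 hΛ)
      rw [show 2 + (j + 1) = 2 + j + 1 by ring, mul_add, mul_one]
      omega
  have hfin : (X \ Z' (2 + l)).card < n₀ := by
    refine (hgrow l le_rfl).resolve_right ?_
    have := card_le_card ((hZ'Z (2 + l)).trans (hZX _))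
    omega
  have hex : 0 < deg (fun c => (π c).symm) y (R \ FC) (Z' (2 + l)) := by
    have e1 := deg_le_sdiff (π := fun c => (π c).symm) y R FC X
    have e2 : deg (fun c => (π c).symm) y (R \ FC) X ≤
        deg (fun c => (π c).symm) y (R \ FC) (X \ Z' (2 + l)) +
        deg (fun c => (π c).symm) y (R \ FC) (Z' (2 + l)) := by
      refine deg_le_add _ _ fun w hw => ?_
      simp only [mem_sdiff]
      tauto
    have e3 := deg_le_card (π := fun c => (π c).symm) (symm_inj hL) y (R \ FC) (X \ Z' (2 + l))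
    omega
  obtain ⟨c, hc⟩ := card_pos.1 hex
  simp only [mem_filter, mem_sdiff, hZ'] at hc
  obtain ⟨hc1, -, q, hq1, hq2, hq3, hq4⟩ := hc
  have hend : π c (endp π x q) = y := by rw [hq3]; simp
  refine ⟨q ++ [c], by simp; omega, ?_, by rw [endp_snoc, hend]⟩
  refine (hq2.mono (fun v hv => Or.inl ⟨hv.1, hv.2.1⟩) fun c hc => hc).snoc hc1 ?_ ?_ ?_ ?_
  · intro h
    exact hq4 c h (by simp)
  · rw [hend]; exact Or.inr rfl
  · rw [hend]; intro h; exact (hq2.vm y h).2.2 rfl
  · rw [hend]; exact hxy.symm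

/-- a small set of colours which gives every good vertex `t` ways of moving into `Y` -/
lemma exists_multi_hit (Gd Y : Finset V) (R FC : Finset C) (h a : ℕ) (hh : Gd.card < 2 ^ h)
    (hdef : ∀ x ∈ Gd, deg π x R Yᶜ ≤ a) (t : ℕ)
    (hr : 2 * (a + FC.card + 2 * h * t) + 1 ≤ R.card) :
    ∃ Γ ⊆ R \ FC, Γ.card ≤ 2 * h * t ∧ ∀ x ∈ Gd, t ≤ deg π x Γ Y := by
  classical
  induction t with
  | zero => exact ⟨∅, empty_subset _, by simp, by simp⟩
  | succ t ih =>
    obtain ⟨Γ, hΓ, hc, hx⟩ := ih (by nlinarith)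
    set U := R \ (FC ∪ Γ) with hU
    have hO : ∀ x ∈ Gd, R.card < 2 * (U.filter fun c => π c x ∈ Y).card := by
      intro x hx
      have e1 := deg_le_sdiff (π := π) x R (FC ∪ Γ) Y
      have e2 := deg_add_compl (π := π) x R Y
      have e3 := hdef x hx
      have e4 := card_union_le FC Γ
      have e5 : (U.filter fun c => π c x ∈ Y).card = deg π x (R \ (FC ∪ Γ)) Y := rfl
      have e6 : 2 * h * t ≤ 2 * h * (t + 1) := Nat.mul_le_mul_left _ (by omega)
      omega
    obtain ⟨H, hH, hHc, hhit⟩ := exists_hitting U (fun x => U.filter fun c => π c x ∈ Y) 2 h Gd hh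
      (fun x _ => filter_subset _ _)
      (fun x hx => card_pos.1 (by have := hO x hx; omega))
      (fun x hx => ((card_le_card sdiff_subset).trans (hO x hx).le))
    refine ⟨Γ ∪ H, union_subset hΓ (hH.trans (sdiff_subset_sdiff Subset.rfl subset_union_left)),
      (card_union_le _ _).trans (by nlinarith), fun x hxG => ?_⟩
    obtain ⟨e, he, heH⟩ := hhit x hxG
    have heU := mem_filter.1 he
    have hnot : e ∉ Γ.filter fun c => π c x ∈ Y := by
      intro h'
      exact (mem_sdiff.1 heU.1).2 (mem_union_right _ (mem_filter.1 h').1)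
    have e1 : insert e (Γ.filter fun c => π c x ∈ Y) ⊆ (Γ ∪ H).filter fun c => π c x ∈ Y := by
      intro c hc
      rcases mem_insert.1 hc with rfl | hc
      · exact mem_filter.2 ⟨mem_union_right _ heH, heU.2⟩
      · exact mem_filter.2 ⟨mem_union_left _ (mem_filter.1 hc).1, (mem_filter.1 hc).2⟩
    have e2 := card_le_card e1
    rw [card_insert_of_notMem hnot] at e2
    have e3 := hx x hxG
    unfold deg at e3 ⊢
    omega

/-- `(A, Γ)` connects every good vertex outside `A` to `y` -/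
def Conn (π : C → Equiv.Perm V) (Gd : Finset V) (y : V) (A : Finset V) (Γ : Finset C) : Prop :=
  ∀ x ∈ Gd, x ∉ A → x ≠ y → ∃ cs, Pth π x cs {v | v ∈ A ∨ v = y} {c | c ∈ Γ} ∧ endp π x cs = y

lemma exists_conn (hL : ∀ x, Function.Injective fun c => π c x) (X Gd : Finset V) (R : Finset C)
    (hG : Gd ⊆ X) (y : V) (a f l h t q : ℕ) (hh : Gd.card < 2 ^ h) (ht : 0 < t)
    (hq : Gd.card ≤ q * t) (hdef : ∀ x ∈ Gd, deg π x R Gdᶜ ≤ a)
    (hr : 2 * (a + 2 * f) + 1 ≤ R.card)
    (hRC : ∀ (FV : Finset V) (FC : Finset C), FV.card ≤ f → FC.card ≤ f → ∀ x ∈ Gd, x ≠ y →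
      ∃ cs, cs.length ≤ l ∧ Pth π x cs {v | (v ∈ X ∧ v ∉ FV) ∨ v = y} {c | c ∈ R ∧ c ∉ FC} ∧
      endp π x cs = y)
    (FV : Finset V) (FC : Finset C) (hy : y ∈ FV) (hFV : FV.card ≤ f)
    (hFC : FC.card + 2 * h * t ≤ f) :
    ∃ A ⊆ X \ FV, ∃ Γ ⊆ R \ FC, A.card ≤ 2 * h * t + (l + 1) * (q * h) ∧
      Γ.card ≤ 2 * h * t + (l + 1) * (q * h) ∧ Conn π Gd y A Γ := by
  classical
  have hdef' : ∀ x ∈ Gd, deg π x R (Gd \ FV)ᶜ ≤ a + f := by
    intro x hx
    have e1 : deg π x R (Gd \ FV)ᶜ ≤ deg π x R Gdᶜ + deg π x R FV := by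
      refine deg_le_add _ _ fun w hw => ?_
      simp only [mem_compl, mem_sdiff] at hw ⊢
      tauto
    have e2 := deg_le_card hL x R FV
    have e3 := hdef x hx
    omega
  obtain ⟨Γ₀, hΓ₀, hΓc, hΓx⟩ := exists_multi_hit (π := π) Gd (Gd \ FV) R FC h (a + f) hh hdef' t
    (by omega)
  obtain ⟨A₀, hA₀, hAc, hhit⟩ := exists_hitting (Gd \ FV)
    (fun x => (Γ₀.filter fun c => π c x ∈ Gd \ FV).image fun c => π c x) q h Gd hh
    (fun x _ w hw => by
      obtain ⟨c, hc, rfl⟩ := mem_image.1 hw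
      exact (mem_filter.1 hc).2)
    (fun x hx => card_pos.1 (by rw [card_image_deg hL]; have := hΓx x hx; omega))
    (fun x hx => by
      rw [card_image_deg hL]
      exact (card_le_card sdiff_subset).trans (hq.trans (Nat.mul_le_mul_left _ (hΓx x hx))))
  have hpath : ∀ z ∈ A₀, ∃ cs, cs.length ≤ l ∧
      Pth π z cs {v | (v ∈ X ∧ v ∉ FV) ∨ v = y} {c | c ∈ R ∧ c ∉ FC ∪ Γ₀} ∧ endp π z cs = y := by
    intro z hz
    have hz' := mem_sdiff.1 (hA₀ hz)
    exact hRC FV (FC ∪ Γ₀) hFV ((card_union_le _ _).trans (by omega)) z hz'.1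
      (fun h => hz'.2 (h ▸ hy))
  choose! p hp1 hp2 hp3 using hpath
  refine ⟨A₀ ∪ (A₀.biUnion fun z => (tl π z (p z)).toFinset).erase y, ?_,
    Γ₀ ∪ A₀.biUnion fun z => (p z).toFinset, ?_, ?_, ?_, ?_⟩
  · refine union_subset (hA₀.trans (sdiff_subset_sdiff hG Subset.rfl)) fun v hv => ?_
    obtain ⟨hvy, hv⟩ := mem_erase.1 hv
    obtain ⟨z, hz, hv⟩ := mem_biUnion.1 hv
    rcases (hp2 z hz).vm v (List.mem_toFinset.1 hv) with h' | h'
    · exact mem_sdiff.2 h'
    · exact absurd h' hvy
  · refine union_subset hΓ₀ fun c hc => ?_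
    obtain ⟨z, hz, hc⟩ := mem_biUnion.1 hc
    have := (hp2 z hz).cm c (List.mem_toFinset.1 hc)
    exact mem_sdiff.2 ⟨this.1, fun h' => this.2 (mem_union_left _ h')⟩
  · have e1 : (A₀.biUnion fun z => (tl π z (p z)).toFinset).card ≤ A₀.card * l :=
      card_biUnion_le_card_mul _ _ _ fun z hz =>
        (List.toFinset_card_le _).trans (by simpa using hp1 z hz)
    have e2 := card_erase_le (s := A₀.biUnion fun z => (tl π z (p z)).toFinset) (a := y)
    have e3 : A₀.card * l ≤ q * h * l := Nat.mul_le_mul_right _ hAc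
    refine (card_union_le _ _).trans ?_
    nlinarith
  · have e1 : (A₀.biUnion fun z => (p z).toFinset).card ≤ A₀.card * l :=
      card_biUnion_le_card_mul _ _ _ fun z hz =>
        (List.toFinset_card_le _).trans (hp1 z hz)
    have e3 : A₀.card * l ≤ q * h * l := Nat.mul_le_mul_right _ hAc
    refine (card_union_le _ _).trans ?_
    nlinarith
  · intro x hx hxA hxy
    obtain ⟨z, hz, hzA⟩ := hhit x hx
    obtain ⟨c, hc, rfl⟩ := mem_image.1 hz
    have hc' := mem_filter.1 hc
    have hP := hp2 _ hzA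
    have hzy : π c x ≠ y := fun h' => (mem_sdiff.1 hc'.2).2 (h' ▸ hy)
    have hsubA : ∀ v ∈ tl π (π c x) (p (π c x)),
        v ∈ A₀ ∪ (A₀.biUnion fun z => (tl π z (p z)).toFinset).erase y ∨ v = y := by
      intro v hv
      by_cases hvy : v = y
      · exact Or.inr hvy
      · exact Or.inl (mem_union_right _ (mem_erase.2 ⟨hvy,
          mem_biUnion.2 ⟨_, hzA, List.mem_toFinset.2 hv⟩⟩))
    refine ⟨c :: p (π c x), ⟨?_, ?_, ?_, ?_, ?_⟩, by rw [endp_cons, hp3 _ hzA]⟩
    · refine List.nodup_cons.2 ⟨fun h' => ?_, hP.cn⟩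
      exact (hP.cm c h').2 (mem_union_right _ hc'.1)
    · rw [tl_cons]
      exact List.nodup_cons.2 ⟨hP.hx, hP.vn⟩
    · rw [tl_cons, List.mem_cons]
      rintro (h' | h')
      · exact hxA (mem_union_left _ (h' ▸ hzA))
      · rcases hsubA x h' with h'' | h''
        · exact hxA h''
        · exact hxy h''
    · intro c' hc''
      rcases List.mem_cons.1 hc'' with rfl | h'
      · exact mem_union_left _ hc'.1
      · exact mem_union_right _ (mem_biUnion.2 ⟨_, hzA, List.mem_toFinset.2 h'⟩)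
    · intro v hv
      rw [tl_cons, List.mem_cons] at hv
      rcases hv with rfl | hv
      · exact Or.inl (mem_union_left _ hzA)
      · exact hsubA v hv

end Pool.Agent.P.MP_0c87c4_co.Asym
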