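import Pool.Agent.P.MP_0c87c4_co.ABasic

/-!
# Rainbow path forests with prescribed start vertices
-/

set_option linter.unusedSectionVars false

namespace Pool.Agent.P.MP_0c87c4_co.Asym

open Finset

variable {V C : Type*} (π : C → Equiv.Perm V) {ι : Type*} [Fintype ι] [DecidableEq ι]
  [DecidableEq V] [DecidableEq C]

/-- the multiset of all edges (colour, head) of a family of walks -/
def edges (y : ι → V) (p : ι → List C) : Multiset (C × V) :=
  ∑ j, ((ed π (y j) (p j) : List (C × V)) : Multiset (C × V))

structure Valid (y : ι → V) (p : ι → List C) (Y : Finset V) (R : Finset C) : Prop where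
  cn : ((edges π y p).map Prod.fst).Nodup
  vn : ((edges π y p).map Prod.snd).Nodup
  mem : ∀ e ∈ edges π y p, e.1 ∈ R ∧ e.2 ∈ Y

variable {π}

lemma edges_update (y : ι → V) (p : ι → List C) (a : ι) (l : List C) :
    edges π y (Function.update p a l) + (ed π (y a) (p a) : Multiset (C × V)) =
      edges π y p + (ed π (y a) l : Multiset (C × V)) := by
  unfold edges
  rw [← add_sum_erase _ _ (mem_univ a), ← add_sum_erase _ _ (mem_univ a)]
  have : ∑ j ∈ univ.erase a, ((ed π (y j) (Function.update p a l j) : List (C × V)) :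
      Multiset (C × V)) = ∑ j ∈ univ.erase a, ((ed π (y j) (p j) : List (C × V)) :
      Multiset (C × V)) := by
    refine sum_congr rfl fun j hj => ?_
    rw [Function.update_of_ne (ne_of_mem_erase hj)]
  rw [this, Function.update_self]
  abel

lemma mem_edges {y : ι → V} {p : ι → List C} {e : C × V} :
    e ∈ edges π y p ↔ ∃ j, e ∈ ed π (y j) (p j) := by
  unfold edges
  rw [Multiset.mem_sum]
  simp

lemma card_edges (y : ι → V) (p : ι → List C) :
    (edges π y p).card = ∑ j, (p j).length := by
  unfold edges
  rw [Multiset.card_sum]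
  simp

lemma edges_ext (y : ι → V) (p : ι → List C) (a : ι) (c : C) :
    edges π y (Function.update p a (p a ++ [c])) =
      (c, π c (endp π (y a) (p a))) ::ₘ edges π y p := by
  have h := edges_update (π := π) y p a (p a ++ [c])
  rw [ed_append, ← Multiset.coe_add] at h
  have h2 : edges π y p + ((ed π (y a) (p a) : Multiset (C × V)) +
      (ed π (endp π (y a) (p a)) [c] : List (C × V))) =
      ((c, π c (endp π (y a) (p a))) ::ₘ edges π y p) + (ed π (y a) (p a) : Multiset (C × V)) := by
    simp only [ed_cons, ed_nil, Multiset.coe_singleton]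
    rw [← Multiset.singleton_add]
    abel
  rw [h2] at h
  exact add_right_cancel h

lemma edges_swap (y : ι → V) (p : ι → List C) (a b : ι) (hab : a ≠ b) (c e : C)
    (l₁ l₂ : List C) (hb : p b = l₁ ++ e :: l₂)
    (hw : π e (endp π (y b) l₁) = π c (endp π (y a) (p a))) :
    ∃ M₀, edges π y p = (e, π c (endp π (y a) (p a))) ::ₘ M₀ ∧
      edges π y (Function.update (Function.update p a (p a ++ c :: l₂)) b l₁) =
        (c, π c (endp π (y a) (p a))) ::ₘ M₀ := by
  set w := π c (endp π (y a) (p a)) with hwdef
  have hmem : (e, w) ∈ edges π y p := by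
    refine mem_edges.2 ⟨b, ?_⟩
    rw [hb, ed_append, ed_cons, hw]
    simp
  obtain ⟨M₀, hM₀⟩ := Multiset.exists_cons_of_mem hmem
  refine ⟨M₀, hM₀, ?_⟩
  have h1 := edges_update (π := π) y p a (p a ++ c :: l₂)
  have h2 := edges_update (π := π) y (Function.update p a (p a ++ c :: l₂)) b l₁
  rw [Function.update_of_ne hab.symm, hb, ed_append, ed_cons, hw, ← Multiset.coe_add,
    ← Multiset.cons_coe] at h2
  rw [ed_append, ed_cons, ← hwdef, ← Multiset.coe_add, ← Multiset.cons_coe, hM₀] at h1
  generalize edges π y (Function.update (Function.update p a (p a ++ c :: l₂)) b l₁) = A at *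
  generalize edges π y (Function.update p a (p a ++ c :: l₂)) = B at *
  generalize Multiset.ofList (ed π (y b) l₁) = E₁ at *
  generalize Multiset.ofList (ed π w l₂) = E₂ at *
  generalize Multiset.ofList (ed π (y a) (p a)) = E₃ at *
  simp only [← Multiset.singleton_add] at h1 h2 ⊢
  have h3 : B = {(e, w)} + M₀ + ({(c, w)} + E₂) := by
    have : B + E₃ = {(e, w)} + M₀ + ({(c, w)} + E₂) + E₃ := by rw [h1]; abel
    exact add_right_cancel this
  have : A + (E₁ + ({(e, w)} + E₂)) = {(c, w)} + M₀ + (E₁ + ({(e, w)} + E₂)) := by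
    rw [h2, h3]; abel
  exact add_right_cancel this

lemma augment [Fintype V] (hL : ∀ x, Function.Injective fun c => π c x) (y : ι → V) (Y : Finset V)
    (R : Finset C) (θ : ℕ) (hY : ∀ x ∈ Y, deg π x R Yᶜ ≤ θ) (hy : ∀ j, deg π (y j) R Yᶜ ≤ θ)
    (p : ι → List C) (hp : Valid π y p Y R) (s : ℕ) (a : Fin s → ι) (ha : Function.Injective a)
    (Q : Finset V) (hQ : ∀ k, ∀ v ∈ tl π (y (a k)) (p (a k)), v ∈ Q) (Δ : ℕ)
    (hΔ : (edges π y p).card + θ + Q.card + Δ ≤ R.card) (hs : (edges π y p).card < s * Δ) :
    ∃ p', Valid π y p' Y R ∧ (edges π y p').card = (edges π y p).card + 1 := by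
  classical
  by_contra hcon
  push Not at hcon
  set M := edges π y p with hM
  set U := (M.map Prod.fst).toFinset with hU
  have hUcard : U.card = M.card := by
    rw [hU, Multiset.toFinset_card_of_nodup hp.cn, Multiset.card_map]
  have hUR : U ⊆ R := by
    intro c hc
    rw [hU, Multiset.mem_toFinset, Multiset.mem_map] at hc
    obtain ⟨e, he, rfl⟩ := hc
    exact (hp.mem e he).1
  have key : ∀ i, i ≤ s → ∃ D ⊆ U, i * Δ ≤ D.card ∧ ∀ c ∈ (R \ U) ∪ D, ∃ p',
      Valid π y p' Y R ∧ (edges π y p').card = M.card ∧ c ∉ (edges π y p').map Prod.fst ∧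
      (∀ w ∈ (edges π y p').map Prod.snd, w ∈ M.map Prod.snd) ∧
      (∀ e ∈ M, e.1 ∉ D → e ∈ edges π y p') ∧ ∀ k : Fin s, i ≤ k → p' (a k) = p (a k) := by
    intro i
    induction i with
    | zero =>
      intro _
      refine ⟨∅, empty_subset _, by simp, fun c hc => ⟨p, hp, rfl, ?_, fun w hw => hw,
        fun e he _ => he, fun _ _ => rfl⟩⟩
      simp only [union_empty, mem_sdiff] at hc
      intro h
      exact hc.2 (Multiset.mem_toFinset.2 h)
    | succ i ih =>
      intro hi
      obtain ⟨D, hDU, hDc, hD⟩ := ih (by omega)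
      set k₀ : Fin s := ⟨i, by omega⟩ with hk₀
      set v := endp π (y (a k₀)) (p (a k₀)) with hv
      have hvdeg : deg π v R Yᶜ ≤ θ := by
        rcases endp_mem π (y (a k₀)) (p (a k₀)) with h | h
        · rw [hv, h]; exact hy _
        · apply hY
          rw [← map_snd_ed, List.mem_map] at h
          obtain ⟨e, he, he'⟩ := h
          rw [hv, ← he']
          exact (hp.mem e (mem_edges.2 ⟨_, he⟩)).2
      set T := ((R \ U) ∪ D).filter fun c => π c v ∈ Y \ Q with hT
      have hsub : (R \ U) ∪ D ⊆ R := union_subset sdiff_subset (hDU.trans hUR)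
      have hTcard : D.card + Δ ≤ T.card := by
        have h1 : ((R \ U) ∪ D).card = R.card - U.card + D.card := by
          rw [card_union_of_disjoint, card_sdiff_of_subset hUR]
          exact disjoint_left.2 fun c hc hc' => (mem_sdiff.1 hc).2 (hDU hc')
        have h2 := deg_add_compl (π := π) v ((R \ U) ∪ D) (Y \ Q)
        have h3 : deg π v ((R \ U) ∪ D) (Y \ Q)ᶜ ≤
            deg π v ((R \ U) ∪ D) Yᶜ + deg π v ((R \ U) ∪ D) Q := by
          refine deg_le_add _ _ fun w hw => ?_
          simp only [mem_compl, mem_sdiff] at hw ⊢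
          tauto
        have h4 : deg π v ((R \ U) ∪ D) Yᶜ ≤ θ := (deg_mono _ hsub Subset.rfl).trans hvdeg
        have h5 := deg_le_card hL v ((R \ U) ∪ D) Q
        have h6 : T.card = deg π v ((R \ U) ∪ D) (Y \ Q) := rfl
        have h7 := card_le_card hUR
        omega
      have hhead : ∀ c ∈ T, ∃ e, (e, π c v) ∈ M := by
        intro c hc
        rw [hT, mem_filter, mem_sdiff] at hc
        obtain ⟨p', hp', hc1, hc2, hc3, -, hc5⟩ := hD c hc.1
        by_contra hno
        have hnot : π c v ∉ (edges π y p').map Prod.snd := by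
          intro h
          obtain ⟨e, he, he'⟩ := Multiset.mem_map.1 (hc3 _ h)
          exact hno ⟨e.1, by rw [← he']; exact he⟩
        have hext := edges_ext (π := π) y p' (a k₀) c
        rw [hc5 k₀ le_rfl, ← hv] at hext
        refine hcon (Function.update p' (a k₀) (p (a k₀) ++ [c])) ⟨?_, ?_, ?_⟩ ?_
        · rw [hext, Multiset.map_cons, Multiset.nodup_cons]
          exact ⟨hc2, hp'.cn⟩
        · rw [hext, Multiset.map_cons, Multiset.nodup_cons]
          exact ⟨hnot, hp'.vn⟩
        · intro e he
          rw [hext, Multiset.mem_cons] at he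
          rcases he with rfl | he
          · exact ⟨hsub hc.1, hc.2.1⟩
          · exact hp'.mem e he
        · rw [hext, Multiset.card_cons, hc1]
      choose! f hf using hhead
      refine ⟨D ∪ T.image f, ?_, ?_, ?_⟩
      · refine union_subset hDU fun e he => ?_
        obtain ⟨c, hc, rfl⟩ := mem_image.1 he
        exact Multiset.mem_toFinset.2 (Multiset.mem_map.2 ⟨_, hf c hc, rfl⟩)
      · have h1 : (T.image f).card = T.card := by
          refine card_image_of_injOn fun c hc c' hc' h => ?_
          have := Multiset.inj_on_of_nodup_map hp.cn _ (hf c hc) _ (hf c' hc') h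
          exact hL v (congrArg Prod.snd this)
        have h2 : (T.image f).card ≤ (D ∪ T.image f).card := card_le_card subset_union_right
        rw [add_mul, one_mul]
        omega
      · intro e he
        by_cases hold : e ∈ (R \ U) ∪ D
        · obtain ⟨p', hp', hc1, hc2, hc3, hc4, hc5⟩ := hD e hold
          exact ⟨p', hp', hc1, hc2, hc3, fun e' he' hn => hc4 e' he' fun h => hn (mem_union_left _ h),
            fun k hk => hc5 k (by omega)⟩
        have he2 : e ∈ T.image f := by
          simp only [mem_union] at he hold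
          tauto
        obtain ⟨c, hc, rfl⟩ := mem_image.1 he2
        have hcT := hc
        rw [hT, mem_filter, mem_sdiff] at hc
        obtain ⟨p', hp', hc1, hc2, hc3, hc4, hc5⟩ := hD c hc.1
        have hin : (f c, π c v) ∈ edges π y p' :=
          hc4 _ (hf c hcT) fun h => hold (mem_union_right _ h)
        obtain ⟨b, hb⟩ := mem_edges.1 hin
        have hbne : ∀ k : Fin s, i ≤ k → a k ≠ b := by
          rintro k hk rfl
          rw [hc5 k hk] at hb
          apply hc.2.2
          apply hQ k
          rw [← map_snd_ed]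
          exact List.mem_map.2 ⟨_, hb, rfl⟩
        obtain ⟨l₁, l₂, hl, hw⟩ := mem_ed π _ _ _ _ hb
        have hv' : v = endp π (y (a k₀)) (p' (a k₀)) := by rw [hc5 k₀ le_rfl]
        obtain ⟨M₀, hM₁, hM₂⟩ := edges_swap (π := π) y p' (a k₀) b (hbne k₀ le_rfl) c (f c) l₁ l₂ hl
          (by rw [hw, hv'])
        rw [← hv'] at hM₁ hM₂
        have hcn := hp'.cn
        have hvn := hp'.vn
        rw [hM₁, Multiset.map_cons, Multiset.nodup_cons] at hcn hvn
        rw [hM₁, Multiset.map_cons, Multiset.mem_cons, not_or] at hc2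
        refine ⟨Function.update (Function.update p' (a k₀) (p' (a k₀) ++ c :: l₂)) b l₁,
          ⟨?_, ?_, ?_⟩, ?_, ?_, ?_, ?_, ?_⟩
        · rw [hM₂, Multiset.map_cons, Multiset.nodup_cons]
          exact ⟨hc2.2, hcn.2⟩
        · rw [hM₂, Multiset.map_cons, Multiset.nodup_cons]
          exact hvn
        · intro e he
          rw [hM₂, Multiset.mem_cons] at he
          rcases he with rfl | he
          · exact ⟨hsub hc.1, hc.2.1⟩
          · exact hp'.mem e (by rw [hM₁]; exact Multiset.mem_cons_of_mem he)
        · rw [hM₂, ← hc1, hM₁, Multiset.card_cons, Multiset.card_cons]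
        · rw [hM₂, Multiset.map_cons, Multiset.mem_cons, not_or]
          exact ⟨fun h => hc2.1 h.symm, hcn.1⟩
        · intro w hw
          apply hc3
          rw [hM₂, Multiset.map_cons] at hw
          rw [hM₁, Multiset.map_cons]
          exact hw
        · intro e' he' hn
          have h1 := hc4 e' he' fun h => hn (mem_union_left _ h)
          rw [hM₁, Multiset.mem_cons] at h1
          rcases h1 with rfl | h1
          · exact absurd (mem_union_right _ he2) hn
          · rw [hM₂]; exact Multiset.mem_cons_of_mem h1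
        · intro k hk
          rw [Function.update_of_ne (hbne k (by omega)), Function.update_of_ne, hc5 k (by omega)]
          intro h
          have := congrArg Fin.val (ha h)
          simp only [hk₀] at this
          omega
  obtain ⟨D, hDU, hDc, -⟩ := key s le_rfl
  have := card_le_card hDU
  omega

/-- the forest lemma -/
lemma exists_forest [Fintype V] (hL : ∀ x, Function.Injective fun c => π c x) (g s : ℕ)
    (hg : 0 < g) (y : Fin g × Fin s → V) (Y : Finset V)
    (R : Finset C) (θ : ℕ) (hY : ∀ x ∈ Y, deg π x R Yᶜ ≤ θ) (hy : ∀ j, deg π (y j) R Yᶜ ≤ θ)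
    (N qb Δ : ℕ) (hq : N ≤ g * qb) (hΔ : N + θ + qb + Δ ≤ R.card) (hs : N ≤ s * Δ) :
    ∃ p, Valid π y p Y R ∧ ∑ j, (p j).length = N := by
  classical
  have key : ∀ n, n ≤ N → ∃ p, Valid π y p Y R ∧ (edges π y p).card = n := by
    intro n
    induction n with
    | zero =>
      intro _
      have : edges π y (fun _ => ([] : List C)) = 0 := by simp [edges]
      exact ⟨fun _ => [], ⟨by simp [this], by simp [this], by simp [this]⟩, by simp [this]⟩
    | succ n ih =>
      intro hn
      obtain ⟨p, hp, hc⟩ := ih (by omega)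
      have hsum : ∑ γ : Fin g, ∑ k : Fin s, (p (γ, k)).length = n := by
        rw [← hc, card_edges, Fintype.sum_prod_type]
      obtain ⟨γ, hγ⟩ : ∃ γ : Fin g, ∑ k : Fin s, (p (γ, k)).length ≤ qb := by
        by_contra hno
        push Not at hno
        have h1 : ∑ _γ : Fin g, (qb + 1) ≤ ∑ γ : Fin g, ∑ k : Fin s, (p (γ, k)).length :=
          sum_le_sum fun γ _ => hno γ
        simp only [sum_const, card_univ, Fintype.card_fin, smul_eq_mul] at h1
        nlinarith
      set Q := univ.biUnion fun k : Fin s => (tl π (y (γ, k)) (p (γ, k))).toFinset with hQ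
      have hQc : Q.card ≤ qb := by
        refine card_biUnion_le.trans (le_trans (sum_le_sum fun k _ => ?_) hγ)
        exact (List.toFinset_card_le _).trans (by simp)
      obtain ⟨p', hp', hc'⟩ := augment hL y Y R θ hY hy p hp s (fun k => (γ, k))
        (fun k k' h => congrArg Prod.snd h) Q
        (fun k v hv => mem_biUnion.2 ⟨k, mem_univ _, List.mem_toFinset.2 hv⟩) Δ
        (by omega) (by omega)
      exact ⟨p', hp', by omega⟩
  obtain ⟨p, hp, hc⟩ := key N le_rfl
  exact ⟨p, hp, by rw [← hc, card_edges]⟩

/-- what validity says about the single paths -/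
lemma Valid.nodup_col {y : ι → V} {p : ι → List C} {Y : Finset V} {R : Finset C}
    (h : Valid π y p Y R) :
    (∀ j, (p j).Nodup) ∧ ∀ j j', j ≠ j' → ∀ c ∈ p j, c ∉ p j' := by
  have h1 := h.cn
  have : (edges π y p).map Prod.fst = ∑ j, ((p j : List C) : Multiset C) := by
    unfold edges
    rw [← Multiset.coe_mapAddMonoidHom, map_sum]
    simp
  rw [this] at h1
  constructor
  · intro j
    have := Multiset.nodup_of_le (single_le_sum (f := fun j => ((p j : List C) : Multiset C))
      (fun _ _ => zero_le) (mem_univ j)) h1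
    simpa using this
  · intro j j' hne c hc hc'
    have h2 : ∑ i ∈ ({j, j'} : Finset ι), ((p i : List C) : Multiset C) ≤
        ∑ j, ((p j : List C) : Multiset C) := sum_le_sum_of_subset (subset_univ _)
    rw [sum_pair hne] at h2
    have h3 := (Multiset.nodup_add.1 (Multiset.nodup_of_le h2 h1)).2.2
    exact Multiset.disjoint_left.1 h3 (by simpa using hc) (by simpa using hc')

lemma Valid.nodup_vert {y : ι → V} {p : ι → List C} {Y : Finset V} {R : Finset C}
    (h : Valid π y p Y R) :
    (∀ j, (tl π (y j) (p j)).Nodup) ∧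
      ∀ j j', j ≠ j' → ∀ v ∈ tl π (y j) (p j), v ∉ tl π (y j') (p j') := by
  have h1 := h.vn
  have : (edges π y p).map Prod.snd = ∑ j, ((tl π (y j) (p j) : List V) : Multiset V) := by
    unfold edges
    rw [← Multiset.coe_mapAddMonoidHom, map_sum]
    simp
  rw [this] at h1
  constructor
  · intro j
    have := Multiset.nodup_of_le
      (single_le_sum (f := fun j => ((tl π (y j) (p j) : List V) : Multiset V))
      (fun _ _ => zero_le) (mem_univ j)) h1
    simpa using this
  · intro j j' hne c hc hc'
    have h2 : ∑ i ∈ ({j, j'} : Finset ι), ((tl π (y i) (p i) : List V) : Multiset V) ≤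
        ∑ j, ((tl π (y j) (p j) : List V) : Multiset V) := sum_le_sum_of_subset (subset_univ _)
    rw [sum_pair hne] at h2
    have h3 := (Multiset.nodup_add.1 (Multiset.nodup_of_le h2 h1)).2.2
    exact Multiset.disjoint_left.1 h3 (by simpa using hc) (by simpa using hc')

lemma Valid.mem_col {y : ι → V} {p : ι → List C} {Y : Finset V} {R : Finset C}
    (h : Valid π y p Y R) (j : ι) : ∀ c ∈ p j, c ∈ R := by
  intro c hc
  rw [← map_fst_ed π (y j) (p j), List.mem_map] at hc
  obtain ⟨e, he, rfl⟩ := hc
  exact (h.mem e (mem_edges.2 ⟨j, he⟩)).1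

lemma Valid.mem_vert {y : ι → V} {p : ι → List C} {Y : Finset V} {R : Finset C}
    (h : Valid π y p Y R) (j : ι) : ∀ v ∈ tl π (y j) (p j), v ∈ Y := by
  intro c hc
  rw [← map_snd_ed π (y j) (p j), List.mem_map] at hc
  obtain ⟨e, he, rfl⟩ := hc
  exact (h.mem e (mem_edges.2 ⟨j, he⟩)).2

end Pool.Agent.P.MP_0c87c4_co.Asym
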