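import Pool.Agent.P.MP_0c87c4_co.AConn
import Pool.Agent.P.MP_0c87c4_co.AForest

/-!
# The dense case: a long rainbow path in a nearly closed set of linear size
-/

set_option linter.unusedSectionVars false

namespace Pool.Agent.P.MP_0c87c4_co.Asym

open Finset

variable {V C : Type*} {π : C → Equiv.Perm V} [DecidableEq V] [DecidableEq C] [Fintype V]

lemma exists_piece (W : Finset V) (R : Finset C) (Λ n₀ : ℕ) (hW : n₀ ≤ W.card) :
    ∃ X ⊆ W, n₀ ≤ X.card ∧ Λ * ∑ x ∈ X, deg π x R (W \ X) ≤ R.card * W.card ∧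
      ∀ S ⊆ X, n₀ ≤ S.card → R.card * (X \ S).card ≤ Λ * ∑ u ∈ S, deg π u R (X \ S) := by
  classical
  obtain ⟨X, hX, hmin⟩ := exists_min_image (W.powerset.filter fun X => n₀ ≤ X.card)
    (fun X => Λ * ∑ x ∈ X, deg π x R (W \ X) + R.card * X.card)
    ⟨W, mem_filter.2 ⟨mem_powerset_self _, hW⟩⟩
  obtain ⟨hXW, hXn⟩ := mem_filter.1 hX
  rw [mem_powerset] at hXW
  refine ⟨X, hXW, hXn, ?_, fun S hS hSn => ?_⟩
  · have := hmin W (mem_filter.2 ⟨mem_powerset_self _, hW⟩)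
    simp only [sdiff_self, bot_eq_empty] at this
    have h0 : ∑ x ∈ W, deg π x R ∅ = 0 := sum_eq_zero fun x _ => by simp [deg]
    rw [h0] at this
    omega
  · have h1 := hmin S (mem_filter.2 ⟨mem_powerset.2 (hS.trans hXW), hSn⟩)
    have h2 : ∑ u ∈ S, deg π u R (W \ S) ≤ ∑ u ∈ S, (deg π u R (X \ S) + deg π u R (W \ X)) := by
      refine sum_le_sum fun u _ => deg_le_add _ _ fun w hw => ?_
      simp only [mem_sdiff] at hw ⊢
      tauto
    rw [sum_add_distrib] at h2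
    have h3 : ∑ u ∈ S, deg π u R (W \ X) ≤ ∑ u ∈ X, deg π u R (W \ X) :=
      sum_le_sum_of_subset hS
    have h4 : (X \ S).card + S.card = X.card := card_sdiff_add_card_eq_card hS
    have h5 : Λ * ∑ u ∈ S, deg π u R (W \ S) ≤
        Λ * (∑ u ∈ S, deg π u R (X \ S) + ∑ u ∈ X, deg π u R (W \ X)) :=
      Nat.mul_le_mul_left _ (by omega)
    rw [← h4] at h1
    nlinarith

lemma exists_conns {ι : Type*} [Fintype ι] [DecidableEq ι] (X Gd : Finset V) (R : Finset C)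
    (y : ι → V) (b f : ℕ) (FV : Finset V) (FC : Finset C) (hy : ∀ j, y j ∈ FV)
    (hV : FV.card + Fintype.card ι * b ≤ f) (hC : FC.card + (Fintype.card ι + 1) * b ≤ f)
    (J : Finset ι)
    (hconn : ∀ j ∈ J, ∀ (FV : Finset V) (FC : Finset C), y j ∈ FV → FV.card ≤ f →
      FC.card + b ≤ f → ∃ A ⊆ X \ FV, ∃ Γ ⊆ R \ FC, A.card ≤ b ∧ Γ.card ≤ b ∧
        Conn π Gd (y j) A Γ) :
    ∃ (A : ι → Finset V) (Γ : ι → Finset C),
      (∀ j, A j ⊆ X \ FV ∧ Γ j ⊆ R \ FC ∧ (A j).card ≤ b ∧ (Γ j).card ≤ b) ∧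
      (∀ j ∈ J, Conn π Gd (y j) (A j) (Γ j)) ∧
      ∀ j j', j ≠ j' → (∀ v ∈ A j, v ∉ A j') ∧ ∀ c ∈ Γ j, c ∉ Γ j' := by
  classical
  induction J using Finset.induction_on with
  | empty => exact ⟨fun _ => ∅, fun _ => ∅, by simp, by simp, by simp⟩
  | insert j₀ J hj₀ ih =>
    obtain ⟨A, Γ, h1, h2, h3⟩ := ih fun j hj => hconn j (mem_insert_of_mem hj)
    have e1 : (univ.biUnion A).card ≤ Fintype.card ι * b :=
      card_biUnion_le_card_mul _ _ _ fun j _ => (h1 j).2.2.1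
    have e2 : (univ.biUnion Γ).card ≤ Fintype.card ι * b :=
      card_biUnion_le_card_mul _ _ _ fun j _ => (h1 j).2.2.2
    obtain ⟨A₀, hA₀, Γ₀, hΓ₀, hAc, hΓc, hcn⟩ := hconn j₀ (mem_insert_self _ _)
      (FV ∪ univ.biUnion A) (FC ∪ univ.biUnion Γ) (mem_union_left _ (hy j₀))
      ((card_union_le _ _).trans (by omega))
      (by have := card_union_le FC (univ.biUnion Γ); nlinarith)
    have hA : ∀ v ∈ A₀, ∀ j, v ∉ A j := fun v hv j hj =>
      (mem_sdiff.1 (hA₀ hv)).2 (mem_union_right _ (mem_biUnion.2 ⟨j, mem_univ _, hj⟩))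
    have hΓ : ∀ v ∈ Γ₀, ∀ j, v ∉ Γ j := fun v hv j hj =>
      (mem_sdiff.1 (hΓ₀ hv)).2 (mem_union_right _ (mem_biUnion.2 ⟨j, mem_univ _, hj⟩))
    refine ⟨Function.update A j₀ A₀, Function.update Γ j₀ Γ₀, fun j => ?_, fun j hj => ?_,
      fun j j' hne => ?_⟩
    · by_cases hj : j = j₀
      · subst hj
        simp only [Function.update_self]
        exact ⟨hA₀.trans (sdiff_subset_sdiff Subset.rfl subset_union_left),
          hΓ₀.trans (sdiff_subset_sdiff Subset.rfl subset_union_left), hAc, hΓc⟩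
      · simp only [Function.update_of_ne hj]
        exact h1 j
    · by_cases hjj : j = j₀
      · subst hjj
        simp only [Function.update_self]
        exact hcn
      · simp only [Function.update_of_ne hjj]
        exact h2 j ((mem_insert.1 hj).resolve_left hjj)
    · by_cases hj : j = j₀
      · subst hj
        simp only [Function.update_self, Function.update_of_ne hne.symm]
        exact ⟨fun v hv => hA v hv _, fun v hv => hΓ v hv _⟩
      · by_cases hj' : j' = j₀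
        · subst hj'
          simp only [Function.update_self, Function.update_of_ne hne]
          exact ⟨fun v hv hv' => hA v hv' _ hv, fun v hv hv' => hΓ v hv' _ hv⟩
        · simp only [Function.update_of_ne hj, Function.update_of_ne hj']
          exact h3 j j' hne

lemma concat_blocks {ι : Type*} [Fintype ι] [DecidableEq ι] (Gd : Finset V) (BV : ι → Set V)
    (BC : ι → Set C) (n : ι → ℕ) (x₀ : V) (j₀ : ι)
    (hV : ∀ j j', j ≠ j' → ∀ v ∈ BV j, v ∉ BV j') (hC : ∀ j j', j ≠ j' → ∀ c ∈ BC j, c ∉ BC j')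
    (h0 : x₀ ∈ BV j₀)
    (hp0 : ∃ cs, Pth π x₀ cs (BV j₀) (BC j₀) ∧ n j₀ ≤ cs.length ∧ endp π x₀ cs ∈ Gd)
    (hj : ∀ j, j ≠ j₀ → ∀ x ∈ Gd, x ∉ BV j →
      ∃ cs, Pth π x cs (BV j) (BC j) ∧ n j ≤ cs.length ∧ endp π x cs ∈ Gd) :
    ∃ cs, Pth π x₀ cs {v | ∃ j, v ∈ BV j} {c | ∃ j, c ∈ BC j} ∧ ∑ j, n j ≤ cs.length := by
  have key : ∀ J : Finset ι, j₀ ∉ J → ∃ cs, Pth π x₀ cs {v | ∃ j ∈ insert j₀ J, v ∈ BV j}
      {c | ∃ j ∈ insert j₀ J, c ∈ BC j} ∧ n j₀ + ∑ j ∈ J, n j ≤ cs.length ∧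
      endp π x₀ cs ∈ Gd := by
    intro J
    induction J using Finset.induction_on with
    | empty =>
      intro _
      obtain ⟨cs, h1, h2, h3⟩ := hp0
      exact ⟨cs, h1.mono (fun v hv => ⟨j₀, by simp, hv⟩) fun v hv => ⟨j₀, by simp, hv⟩,
        by simpa using h2, h3⟩
    | insert j J hjJ ih =>
      intro hj₀
      have hne : j ≠ j₀ := fun h => hj₀ (h ▸ mem_insert_self _ _)
      obtain ⟨cs, h1, h2, h3⟩ := ih fun h => hj₀ (mem_insert_of_mem h)
      have hne' : ∀ i ∈ insert j₀ J, i ≠ j := by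
        intro i hi h
        rcases mem_insert.1 hi with h' | h'
        · exact hne (h ▸ h')
        · exact hjJ (h ▸ h')
      have htl : ∀ v ∈ tl π x₀ cs, v ∉ BV j := by
        intro v hv
        obtain ⟨i, hi, hvi⟩ := h1.vm v hv
        exact hV i j (hne' i hi) v hvi
      have hx₀ : x₀ ∉ BV j := hV j₀ j hne.symm x₀ h0
      have hend : endp π x₀ cs ∉ BV j := by
        rcases endp_mem π x₀ cs with h | h
        · rw [h]; exact hx₀
        · exact htl _ h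
      obtain ⟨cs', h4, h5, h6⟩ := hj j hne _ h3 hend
      refine ⟨cs ++ cs', h1.append h4 ?_ htl hx₀ ?_ ?_ ?_ ?_, ?_, by rw [endp_append]; exact h6⟩
      · intro c hc
        obtain ⟨i, hi, hci⟩ := h1.cm c hc
        exact hC i j (hne' i hi) c hci
      · rintro v ⟨i, hi, hvi⟩
        exact ⟨i, by simp only [mem_insert] at hi ⊢; tauto, hvi⟩
      · intro v hv
        exact ⟨j, by simp, hv⟩
      · rintro v ⟨i, hi, hvi⟩
        exact ⟨i, by simp only [mem_insert] at hi ⊢; tauto, hvi⟩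
      · intro v hv
        exact ⟨j, by simp, hv⟩
      · rw [sum_insert hjJ, List.length_append]; omega
  obtain ⟨cs, h1, h2, -⟩ := key (univ.erase j₀) (notMem_erase _ _)
  refine ⟨cs, h1.mono ?_ ?_, ?_⟩
  · rintro v ⟨i, -, hvi⟩
    exact ⟨i, hvi⟩
  · rintro v ⟨i, -, hvi⟩
    exact ⟨i, hvi⟩
  · rw [← add_sum_erase _ _ (mem_univ j₀)]
    exact h2

lemma sum_deg_symm (S : Finset V) (R : Finset C) :
    ∑ y ∈ S, deg (fun c => (π c).symm) y R S = ∑ x ∈ S, deg π x R S := by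
  unfold deg
  simp only [card_filter]
  rw [sum_comm, sum_comm (s := S)]
  refine sum_congr rfl fun c _ => ?_
  rw [← card_filter, ← card_filter]
  refine card_bij (fun y _ => (π c).symm y) ?_ ?_ ?_
  · intro y hy
    simp only [mem_filter] at hy ⊢
    exact ⟨hy.2, by simpa using hy.1⟩
  · intro y _ y' _ h
    exact (π c).symm.injective h
  · intro x hx
    simp only [mem_filter] at hx
    exact ⟨π c x, mem_filter.2 ⟨hx.2, by simpa using hx.1⟩, by simp⟩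

lemma dense_core (hL : ∀ x, Function.Injective fun c => π c x) (X Gd : Finset V) (R : Finset C)
    (hG : Gd ⊆ X) (K Λ a n₀ f g l : ℕ) (hΛ : 0 < Λ)
    (hN : X.card ≤ K * R.card)
    (hdef : ∀ x ∈ Gd, deg π x R Gdᶜ ≤ a)
    (hexp : ∀ S ⊆ X, n₀ ≤ S.card → R.card * (X \ S).card ≤ Λ * ∑ u ∈ S, deg π u R (X \ S))
    (h1 : Λ * (f * (K + 1) + 2 + (3 * l + 7) * K + g) ≤ n₀)
    (h2 : K * R.card < g * l)
    (h3 : 2 * (a + 2 * f + 2) ≤ R.card)
    (h4 : 4 * (f * (K + 1) + 2 + (3 * l + 7) * K + n₀) ≤ R.card)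
    (h5 : 4 * a ≤ R.card)
    (h t q : ℕ) (hh : Gd.card < 2 ^ h) (ht : 0 < t) (hq : Gd.card ≤ q * t)
    (L gg s : ℕ) (hgg : 0 < gg) (hs : 0 < s)
    (h6 : L + gg * s + (gg * s + 1) * (2 * h * t + (l + 3 + 1) * (q * h)) ≤ f)
    (N qb Δ : ℕ) (h7 : N ≤ gg * qb) (h8 : N + (a + f) + qb + Δ + f ≤ R.card) (h9 : N ≤ s * Δ)
    (x₀ : V) (hx₀ : x₀ ∈ Gd) (FV : Finset V) (FC : Finset C) (hFV : FV.card ≤ L)
    (hFC : FC.card ≤ L) (hx₀F : x₀ ∉ FV) :
    ∃ cs, Pth π x₀ cs {v | v ∈ X ∧ v ∉ FV} {c | c ∈ R ∧ c ∉ FC} ∧ N ≤ cs.length := by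
  classical
  set b := 2 * h * t + (l + 3 + 1) * (q * h) with hb
  set Gin := Gd.filter fun y => R.card ≤ 2 * deg (fun c => (π c).symm) y R X with hGin
  have hGinc : R.card ≤ 4 * Gin.card := by
    have e1 : ∑ _x ∈ Gd, 3 * R.card ≤ ∑ x ∈ Gd, 4 * deg π x R Gd := by
      refine sum_le_sum fun x hx => ?_
      have := deg_add_compl (π := π) x R Gd
      have := hdef x hx
      omega
    rw [← mul_sum, ← mul_sum, ← sum_deg_symm, sum_const, smul_eq_mul] at e1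
    have e2 : ∑ y ∈ Gd, 2 * deg (fun c => (π c).symm) y R Gd ≤
        ∑ y ∈ Gd, (R.card + if R.card ≤ 2 * deg (fun c => (π c).symm) y R X then R.card else 0) := by
      refine sum_le_sum fun y _ => ?_
      have e3 := deg_le_col (π := fun c => (π c).symm) y R Gd
      have e4 : deg (fun c => (π c).symm) y R Gd ≤ deg (fun c => (π c).symm) y R X :=
        deg_mono _ Subset.rfl hG
      split_ifs <;> omega
    rw [← mul_sum, sum_add_distrib, sum_const, smul_eq_mul, ← sum_filter, sum_const,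
      smul_eq_mul, ← hGin] at e2
    have e3 : Gd.card * R.card ≤ (2 * Gin.card) * R.card := by nlinarith
    have e4 : Gd.card ≤ 2 * Gin.card := Nat.le_of_mul_le_mul_right e3 (by omega)
    have e5 := deg_add_compl (π := π) x₀ R Gd
    have e6 := hdef x₀ hx₀
    have e7 := deg_le_card hL x₀ R Gd
    omega
  have hcard : Fintype.card (Fin gg × Fin s) = gg * s := by simp
  have hbig : Fintype.card (Fin gg × Fin s) ≤ (Gin \ insert x₀ FV).card := by
    have e1 := le_card_sdiff (insert x₀ FV) Gin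
    have e2 := card_insert_le x₀ FV
    rw [hcard]
    omega
  obtain ⟨e, he⟩ := Function.Embedding.exists_of_card_le_finset hbig
  have he' : ∀ j, e j ∈ Gin ∧ e j ≠ x₀ ∧ e j ∉ FV := by
    intro j
    have := he ⟨j, rfl⟩
    simpa only [coe_sdiff, coe_insert, Set.mem_sdiff, mem_coe, Set.mem_insert_iff, not_or] using this
  set j₀ : Fin gg × Fin s := (⟨0, hgg⟩, ⟨0, hs⟩) with hj₀
  set y : Fin gg × Fin s → V := Function.update e j₀ x₀ with hy
  have hy0 : y j₀ = x₀ := Function.update_self _ _ _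
  have hy1 : ∀ j, j ≠ j₀ → y j = e j := fun j hj => Function.update_of_ne hj _ _
  have hyG : ∀ j, y j ∈ Gd ∧ y j ∉ FV := by
    intro j
    by_cases hj : j = j₀
    · rw [hj, hy0]; exact ⟨hx₀, hx₀F⟩
    · rw [hy1 j hj]; exact ⟨(mem_filter.1 (he' j).1).1, (he' j).2.2⟩
  have hyinj : ∀ j j', j ≠ j' → y j ≠ y j' := by
    intro j j' hne
    by_cases hj : j = j₀
    · rw [hj, hy0, hy1 j' (fun h => hne (hj.trans h.symm))]
      exact (he' j').2.1.symm
    · by_cases hj' : j' = j₀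
      · rw [hj', hy0, hy1 j hj]; exact (he' j).2.1
      · rw [hy1 j hj, hy1 j' hj']; exact fun h => hne (e.injective h)
  set F₀ := FV ∪ univ.image y with hF₀
  have hF₀c : F₀.card ≤ L + gg * s := by
    refine (card_union_le _ _).trans (add_le_add hFV (card_image_le.trans ?_))
    simp
  have hyF : ∀ j, y j ∈ F₀ := fun j => mem_union_right _ (mem_image.2 ⟨j, mem_univ _, rfl⟩)
  obtain ⟨A, Γ, hA1, hA2, hA3⟩ := exists_conns (π := π) X Gd R y b f F₀ FC hyF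
    (by rw [hcard]; nlinarith) (by rw [hcard]; nlinarith) (univ.erase j₀) (by
      intro j hj FV' FC' hyj hFV' hFC'
      have hjne := ne_of_mem_erase hj
      refine exists_conn hL X Gd R hG (y j) a f (l + 3) h t q hh ht hq hdef (by omega) ?_ FV' FC'
        hyj hFV' (by omega)
      intro FV'' FC'' hV'' hC'' x hx hxy
      refine short_path hL X Gd R hG K Λ a n₀ f g l hΛ hN hdef hexp h1 h2 h3 h4 FV'' FC'' hV'' hC''
        x hx (y j) hxy ?_
      rw [hy1 j hjne]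
      exact (mem_filter.1 (he' j).1).2)
  set Y := Gd \ (F₀ ∪ univ.biUnion A) with hY
  set R' := R \ (FC ∪ univ.biUnion Γ) with hR'
  have e1 : (univ.biUnion A).card ≤ gg * s * b := by
    rw [← hcard]; exact card_biUnion_le_card_mul _ _ _ fun j _ => (hA1 j).2.2.1
  have e2 : (univ.biUnion Γ).card ≤ gg * s * b := by
    rw [← hcard]; exact card_biUnion_le_card_mul _ _ _ fun j _ => (hA1 j).2.2.2
  have hdefY : ∀ x ∈ Gd, deg π x R' Yᶜ ≤ a + f := by
    intro x hx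
    have e3 : deg π x R' Yᶜ ≤ deg π x R' Gdᶜ + deg π x R' (F₀ ∪ univ.biUnion A) := by
      refine deg_le_add _ _ fun w hw => ?_
      simp only [hY, mem_compl, mem_sdiff] at hw ⊢
      tauto
    have e4 : deg π x R' Gdᶜ ≤ a := (deg_mono _ sdiff_subset Subset.rfl).trans (hdef x hx)
    have e5 := deg_le_card hL x R' (F₀ ∪ univ.biUnion A)
    have e6 := card_union_le F₀ (univ.biUnion A)
    nlinarith
  have hR'c : R.card ≤ R'.card + f := by
    have e3 : R.card - (FC ∪ univ.biUnion Γ).card ≤ R'.card := le_card_sdiff _ R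
    have e4 := card_union_le FC (univ.biUnion Γ)
    have e5 : FC.card + (univ.biUnion Γ).card ≤ f := by nlinarith
    omega
  obtain ⟨p, hp, hpN⟩ := exists_forest hL gg s hgg y Y R' (a + f)
    (fun x hx => hdefY x (mem_sdiff.1 hx).1) (fun j => hdefY _ (hyG j).1) N qb Δ h7 (by omega) h9
  have hpV := hp.mem_vert
  have hpC := hp.mem_col
  have htl : ∀ j, ∀ v ∈ tl π (y j) (p j), v ∈ Gd ∧ v ∉ FV ∧ (∀ i, v ≠ y i) ∧ ∀ i, v ∉ A i := by
    intro j v hv
    have := mem_sdiff.1 (hpV j v hv)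
    refine ⟨this.1, fun h' => this.2 (mem_union_left _ (mem_union_left _ h')),
      fun i h' => this.2 (mem_union_left _ (h' ▸ hyF i)),
      fun i h' => this.2 (mem_union_right _ (mem_biUnion.2 ⟨i, mem_univ _, h'⟩))⟩
  have hcl : ∀ j, ∀ c ∈ p j, c ∈ R ∧ c ∉ FC ∧ ∀ i, c ∉ Γ i := by
    intro j c hc
    have := mem_sdiff.1 (hpC j c hc)
    exact ⟨this.1, fun h' => this.2 (mem_union_left _ h'),
      fun i h' => this.2 (mem_union_right _ (mem_biUnion.2 ⟨i, mem_univ _, h'⟩))⟩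
  have hAy : ∀ j i, y i ∉ A j := fun j i h' => (mem_sdiff.1 ((hA1 j).1 h')).2 (hyF i)
  have hP : ∀ j, Pth π (y j) (p j) {v | v ∈ tl π (y j) (p j)} {c | c ∈ p j} := fun j =>
    ⟨hp.nodup_col.1 j, hp.nodup_vert.1 j, fun h' => (htl j _ h').2.2.1 j rfl, fun _ h' => h',
      fun _ h' => h'⟩
  have hend : ∀ j, endp π (y j) (p j) ∈ Gd := by
    intro j
    rcases endp_mem π (y j) (p j) with h' | h'
    · rw [h']; exact (hyG j).1
    · exact (htl j _ h').1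
  obtain ⟨cs, hcs, hlen⟩ := concat_blocks (π := π) Gd
    (fun j => {v | v ∈ A j ∨ v = y j ∨ v ∈ tl π (y j) (p j)})
    (fun j => {c | c ∈ Γ j ∨ c ∈ p j}) (fun j => (p j).length) x₀ j₀
    (by
      rintro j j' hne v (hv | hv | hv) (hv' | hv' | hv')
      · exact (hA3 j j' hne).1 v hv hv'
      · exact hAy j j' (hv' ▸ hv)
      · exact (htl j' v hv').2.2.2 j hv
      · exact hAy j' j (hv ▸ hv')
      · exact hyinj j j' hne (hv.symm.trans hv')
      · exact (htl j' v hv').2.2.1 j hv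
      · exact (htl j v hv).2.2.2 j' hv'
      · exact (htl j v hv).2.2.1 j' hv'
      · exact hp.nodup_vert.2 j j' hne v hv hv')
    (by
      rintro j j' hne c (hc | hc) (hc' | hc')
      · exact (hA3 j j' hne).2 c hc hc'
      · exact (hcl j' c hc').2.2 j hc
      · exact (hcl j c hc).2.2 j' hc'
      · exact hp.nodup_col.2 j j' hne c hc hc')
    (Or.inr (Or.inl hy0.symm))
    ⟨p j₀, by
      rw [← hy0]
      exact ⟨(hP j₀).mono (fun v hv => Or.inr (Or.inr hv)) fun c hc => Or.inr hc, le_rfl,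
        hend j₀⟩⟩
    (by
      intro j hj x hx hxB
      simp only [Set.mem_ofPred_eq, not_or] at hxB
      obtain ⟨cs, hc1, hc2⟩ := hA2 j (mem_erase.2 ⟨hj, mem_univ _⟩) x hx hxB.1 hxB.2.1
      have hP' := hP j
      rw [← hc2] at hP'
      refine ⟨cs ++ p j, hc1.append hP' ?_ ?_ ?_ ?_ ?_ ?_ ?_, by simp,
        by rw [endp_append, hc2]; exact hend j⟩
      · intro c hc hc'
        exact (hcl j c hc').2.2 j (hc1.cm c hc)
      · intro v hv hv'
        rw [hc2] at hv'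
        rcases hc1.vm v hv with h' | h'
        · exact (htl j v hv').2.2.2 j h'
        · exact (htl j v hv').2.2.1 j h'
      · rw [hc2]; exact hxB.2.2
      · rintro v (hv | hv)
        · exact Or.inl hv
        · exact Or.inr (Or.inl hv)
      · intro v hv
        rw [hc2] at hv
        exact Or.inr (Or.inr hv)
      · intro c hc; exact Or.inl hc
      · intro c hc; exact Or.inr hc)
  refine ⟨cs, hcs.mono ?_ ?_, by omega⟩
  · rintro v ⟨j, hv | hv | hv⟩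
    · have := mem_sdiff.1 ((hA1 j).1 hv)
      exact ⟨this.1, fun h' => this.2 (mem_union_left _ h')⟩
    · rw [hv]; exact ⟨hG (hyG j).1, (hyG j).2⟩
    · exact ⟨hG (htl j v hv).1, (htl j v hv).2.1⟩
  · rintro c ⟨j, hc | hc⟩
    · exact mem_sdiff.1 ((hA1 j).2.1 hc)
    · exact ⟨(hcl j c hc).1, (hcl j c hc).2.1⟩

lemma exists_root (w₀ r : ℕ) (h : w₀ ^ 4 ≤ r) : ∃ w, w₀ ≤ w ∧ w ^ 4 ≤ r ∧ r < (w + 1) ^ 4 := by
  classical
  have hex : ∃ w, r < (w + 1) ^ 4 := ⟨r, by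
    calc r < r + 1 := Nat.lt_succ_self r
      _ ≤ (r + 1) ^ 4 := Nat.le_self_pow (by norm_num) _⟩
  have h1 := Nat.find_spec hex
  refine ⟨Nat.find hex, ?_, ?_, h1⟩
  · have := lt_of_pow_lt_pow_left₀ 4 (Nat.zero_le _) (lt_of_le_of_lt h h1)
    omega
  · rcases Nat.eq_zero_or_pos (Nat.find hex) with h0 | h0
    · rw [h0]; simp
    · have := Nat.find_min hex (m := Nat.find hex - 1) (by omega)
      rw [Nat.sub_add_cancel h0] at this
      omega

/-- choice of the numerical parameters -/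
lemma dense_params (E : ℕ) (hE : 0 < E) (H : ℕ) (hH : H = 100 * E) (K : ℕ) (hK0 : 0 < K)
    (Λ : ℕ) (hΛ0 : 0 < Λ) (L : ℕ) : ∃ r₀ : ℕ, 40 ≤ r₀ ∧ ∀ r, r₀ ≤ r →
    ∃ f g l h t q gg s N qb Δ : ℕ,
      Λ * (f * (K + 1) + 2 + (3 * l + 7) * K + g) ≤ r / 10 ∧ K * r < g * l ∧
      2 * (3 * r / H + 2 * f + 2) ≤ r ∧ 4 * (f * (K + 1) + 2 + (3 * l + 7) * K + r / 10) ≤ r ∧
      4 * (3 * r / H) ≤ r ∧ K * r < 2 ^ h ∧ 0 < t ∧ K * r ≤ q * t ∧ 0 < gg ∧ 0 < s ∧
      L + gg * s + (gg * s + 1) * (2 * h * t + (l + 3 + 1) * (q * h)) ≤ f ∧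
      N ≤ gg * qb ∧ N + (3 * r / H + f) + qb + Δ + f ≤ r ∧ N ≤ s * Δ ∧ E * r ≤ E * N + r := by
  have hH0 : 100 ≤ H := by omega
  obtain ⟨l, hl⟩ : ∃ l, l = 80 * Λ * K := ⟨_, rfl⟩
  obtain ⟨M, hM⟩ : ∃ M, M = 40 * Λ * (K + 1) * H := ⟨_, rfl⟩
  have hM0 : 0 < M := by
    have : 0 < H := by omega
    rw [hM]; positivity
  obtain ⟨c₁, hc₁⟩ : ∃ c₁, c₁ = (K + 4) * (2 + (l + 4) * K) := ⟨_, rfl⟩
  obtain ⟨c₂, hc₂⟩ : ∃ c₂, c₂ = L + H * (4 * E) + (H * (4 * E) + 1) * (8 * c₁) := ⟨_, rfl⟩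
  obtain ⟨c₃, hc₃⟩ : ∃ c₃, c₃ = 40 * Λ * (2 + (3 * l + 7) * K) := ⟨_, rfl⟩
  obtain ⟨w₀, hw₀⟩ : ∃ w₀, w₀ = M * c₂ + c₃ + 40 * Λ + 10 * E + 40 := ⟨_, rfl⟩
  refine ⟨w₀ ^ 4, le_trans (by omega) (Nat.le_self_pow (by norm_num) w₀), fun r hr => ?_⟩
  obtain ⟨w, hw0, hw1, hw2⟩ := exists_root _ _ hr
  have hw : 1 ≤ w := by omega
  have hwr : w ≤ r := (Nat.le_self_pow (by norm_num) _).trans hw1
  have b1 : M * c₂ ≤ w := by omega
  have b2 : c₃ ≤ r := by omega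
  have b3 : 40 * Λ ≤ r := by omega
  have b4 : 10 * E + 40 ≤ r := by omega
  clear hr hw0 hw₀ w₀
  obtain ⟨a, ha⟩ : ∃ a, a = 3 * r / H := ⟨_, rfl⟩
  obtain ⟨f, hf⟩ : ∃ f, f = r / M := ⟨_, rfl⟩
  obtain ⟨g, hg⟩ : ∃ g, g = r / (40 * Λ) := ⟨_, rfl⟩
  obtain ⟨e, he⟩ : ∃ e, e = r / E := ⟨_, rfl⟩
  obtain ⟨qb, hqb⟩ : ∃ qb, qb = r / H := ⟨_, rfl⟩
  obtain ⟨D, hD⟩ : ∃ D, D = r / (4 * E) := ⟨_, rfl⟩
  have ha1 : H * a ≤ 3 * r := by rw [ha]; exact Nat.mul_div_le _ _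
  have ha2 : 100 * a ≤ 3 * r := (Nat.mul_le_mul_right _ hH0).trans ha1
  have hf1 : M * f ≤ r := by rw [hf]; exact Nat.mul_div_le _ _
  have hf2 : 40 * (Λ * (f * (K + 1))) ≤ r := by
    refine le_trans ?_ hf1
    rw [hM]
    calc 40 * (Λ * (f * (K + 1))) = 40 * Λ * (K + 1) * f * 1 := by ring
      _ ≤ 40 * Λ * (K + 1) * f * H := Nat.mul_le_mul_left _ (le_trans (by norm_num) hH0)
      _ = _ := by ring
  have hf3 : H * f ≤ r := by
    refine le_trans ?_ hf1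
    rw [hM]
    calc H * f = 1 * (H * f) := by ring
      _ ≤ (40 * Λ * (K + 1)) * (H * f) :=
        Nat.mul_le_mul_right _ (Nat.succ_le_of_lt (by positivity))
      _ = _ := by ring
  have hf4 : 100 * f ≤ r := (Nat.mul_le_mul_right _ hH0).trans hf3
  have hg1 : 40 * (Λ * g) ≤ r := by
    rw [hg, ← mul_assoc]; exact Nat.mul_div_le _ _
  have hg2 : r < 40 * Λ * (g + 1) := by
    rw [hg]; exact Nat.lt_mul_div_succ _ (by positivity)
  have hg3 : 1 ≤ g := by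
    rw [hg, Nat.le_div_iff_mul_le (by positivity), one_mul]; exact b3
  have he1 : E * e ≤ r := by rw [he]; exact Nat.mul_div_le _ _
  have he2 : r < E * (e + 1) := by rw [he]; exact Nat.lt_mul_div_succ _ hE
  have e0 : e ≤ r := by rw [he]; exact Nat.div_le_self _ _
  have hc₃r : 40 * (Λ * (2 + (3 * l + 7) * K)) ≤ r := by
    rw [← mul_assoc, ← hc₃]; exact b2
  have hq2 : r < H * (qb + 1) := by rw [hqb]; exact Nat.lt_mul_div_succ _ (by omega)
  have hq1 : H * qb ≤ r := by rw [hqb]; exact Nat.mul_div_le _ _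
  have hD2 : r < 4 * E * (D + 1) := by rw [hD]; exact Nat.lt_mul_div_succ _ (by positivity)
  have hD1 : 4 * E * D ≤ r := by rw [hD]; exact Nat.mul_div_le _ _
  have hfin : L + H * (4 * E) + (H * (4 * E) + 1) * (2 * (K + 4 * (w + 1)) * (w + 1) ^ 2 +
      (l + 3 + 1) * (K * (w + 1) ^ 2 * (K + 4 * (w + 1)))) ≤ f := by
    rw [hf, Nat.le_div_iff_mul_le hM0]
    have e1 : K + 4 * (w + 1) ≤ (K + 4) * (w + 1) := by
      have : K * 1 ≤ K * (w + 1) := Nat.mul_le_mul_left _ (Nat.le_add_left _ _)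
      calc K + 4 * (w + 1) = K * 1 + 4 * (w + 1) := by ring
        _ ≤ K * (w + 1) + 4 * (w + 1) := Nat.add_le_add_right this _
        _ = _ := by ring
    have e2 : (w + 1) ^ 3 ≤ (2 * w) ^ 3 :=
      Nat.pow_le_pow_left (by rw [two_mul]; exact Nat.add_le_add_left hw _) 3
    have e3 : 2 * (K + 4 * (w + 1)) * (w + 1) ^ 2 +
        (l + 3 + 1) * (K * (w + 1) ^ 2 * (K + 4 * (w + 1))) ≤ 8 * c₁ * w ^ 3 := by
      calc 2 * (K + 4 * (w + 1)) * (w + 1) ^ 2 +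
          (l + 3 + 1) * (K * (w + 1) ^ 2 * (K + 4 * (w + 1)))
          = (K + 4 * (w + 1)) * ((2 + (l + 4) * K) * (w + 1) ^ 2) := by ring
        _ ≤ ((K + 4) * (w + 1)) * ((2 + (l + 4) * K) * (w + 1) ^ 2) :=
          Nat.mul_le_mul_right _ e1
        _ = c₁ * (w + 1) ^ 3 := by rw [hc₁]; ring
        _ ≤ c₁ * (2 * w) ^ 3 := Nat.mul_le_mul_left _ e2
        _ = 8 * c₁ * w ^ 3 := by ring
    have e4 : 1 ≤ w ^ 3 := Nat.one_le_pow _ _ hw
    have e5 : L + H * (4 * E) + (H * (4 * E) + 1) * (2 * (K + 4 * (w + 1)) * (w + 1) ^ 2 +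
        (l + 3 + 1) * (K * (w + 1) ^ 2 * (K + 4 * (w + 1)))) ≤ c₂ * w ^ 3 := by
      have e6 := Nat.mul_le_mul_left (H * (4 * E) + 1) e3
      have e7 : L + H * (4 * E) ≤ (L + H * (4 * E)) * w ^ 3 := Nat.le_mul_of_pos_right _ e4
      calc _ ≤ (L + H * (4 * E)) * w ^ 3 + (H * (4 * E) + 1) * (8 * c₁ * w ^ 3) :=
            Nat.add_le_add e7 e6
        _ = c₂ * w ^ 3 := by rw [hc₂]; ring
    calc _ ≤ c₂ * w ^ 3 * M := Nat.mul_le_mul_right _ e5
      _ = (M * c₂) * w ^ 3 := by ring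
      _ ≤ w * w ^ 3 := Nat.mul_le_mul_right _ b1
      _ = w ^ 4 := by ring
      _ ≤ r := hw1
  have hpow : K * r < 2 ^ (K + 4 * (w + 1)) := by
    have e1 : K < 2 ^ K := Nat.lt_two_pow_self
    have e2 : w + 1 < 2 ^ (w + 1) := Nat.lt_two_pow_self
    have e3 : (w + 1) ^ 4 ≤ (2 ^ (w + 1)) ^ 4 := Nat.pow_le_pow_left e2.le 4
    calc K * r < 2 ^ K * (2 ^ (w + 1)) ^ 4 := Nat.mul_lt_mul'' e1 (lt_of_lt_of_le hw2 e3)
      _ = 2 ^ (K + 4 * (w + 1)) := by rw [← pow_mul, ← pow_add, mul_comm (w + 1) 4]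
  have hqt : K * r ≤ K * (w + 1) ^ 2 * (w + 1) ^ 2 := by
    calc K * r ≤ K * (w + 1) ^ 4 := Nat.mul_le_mul_left _ hw2.le
      _ = _ := by ring
  have hgl : K * r < g * l := by
    rw [hl]
    have e1 : 40 * Λ * (g + 1) ≤ 40 * Λ * (g + g) := Nat.mul_le_mul_left _ (by omega)
    have : r < 80 * Λ * g := by
      calc r < 40 * Λ * (g + g) := lt_of_lt_of_le hg2 e1
        _ = _ := by ring
    calc K * r < K * (80 * Λ * g) := Nat.mul_lt_mul_of_pos_left this hK0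
      _ = _ := by ring
  rw [← ha]
  clear ha hf hg he hqb hD hc₁ hc₂ hc₃ hM hl hw1 hw2 b1 b2 hf1 hg2
  have h1 : Λ * (f * (K + 1) + 2 + (3 * l + 7) * K + g) ≤ r / 10 := by
    have : Λ * (f * (K + 1) + 2 + (3 * l + 7) * K + g) =
        Λ * (f * (K + 1)) + Λ * (2 + (3 * l + 7) * K) + Λ * g := by ring
    rw [this]
    clear this hfin hpow hqt
    omega
  have h1' : f * (K + 1) + 2 + (3 * l + 7) * K + g ≤ r / 10 :=
    le_trans (Nat.le_mul_of_pos_left _ hΛ0) h1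
  have h8 : a + f + (qb + 1) + (D + 1) + f ≤ e := by
    have e2 : H * (a + f + (qb + 1) + (D + 1) + f) ≤ H * e := by
      have e3 : H * D = 25 * (4 * E * D) := by rw [hH]; ring
      have e4 : H * e = 100 * (E * e) := by rw [hH]; ring
      have e5 : E * (e + 1) = E * e + E := by ring
      have e6 : H * (a + f + (qb + 1) + (D + 1) + f) =
        H * a + H * f + H * qb + H + H * D + H + H * f := by ring
      clear hfin hpow hqt h1 h1'
      omega
    exact Nat.le_of_mul_le_mul_left e2 (by omega)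
  have h9 : E * r ≤ E * (r - e) + r := by
    have e1 : E * r = E * (r - e) + E * e := by rw [← mul_add, Nat.sub_add_cancel e0]
    rw [e1]; exact Nat.add_le_add_left he1 _
  refine ⟨f, g, l, K + 4 * (w + 1), (w + 1) ^ 2, K * (w + 1) ^ 2, H, 4 * E, r - e, qb + 1, D + 1,
    h1, hgl, ?_, ?_, ?_, hpow, by positivity, hqt, ?_, ?_, hfin, ?_, ?_, ?_, h9⟩
  all_goals
    clear hfin hpow hqt h1 h9
    omega

/-- The dense lemma. -/
theorem dense (E : ℕ) (hE : 0 < E) : ∃ G : ℕ, 0 < G ∧ ∀ K L : ℕ, ∃ r₀ : ℕ,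
    ∀ (V C : Type) [Fintype V] [DecidableEq V] [DecidableEq C] (π : C → Equiv.Perm V),
      (∀ x, Function.Injective fun c => π c x) → ∀ (R : Finset C) (W : Finset V),
      r₀ ≤ R.card → R.card ≤ 10 * W.card → W.card ≤ K * R.card →
      G * ∑ x ∈ W, deg π x R Wᶜ ^ 2 ≤ R.card ^ 3 →
      ∃ x₀ ∈ W, ∀ (FV : Finset V) (FC : Finset C), FV.card ≤ L → FC.card ≤ L → x₀ ∉ FV →
        ∃ cs, Pth π x₀ cs {v | v ∈ W ∧ v ∉ FV} {c | c ∈ R ∧ c ∉ FC} ∧
          E * R.card ≤ E * cs.length + R.card := by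
  obtain ⟨H, hH⟩ : ∃ H, H = 100 * E := ⟨_, rfl⟩
  have hH0 : 100 ≤ H := by omega
  have hH1 : 0 < H := by omega
  refine ⟨2 * H ^ 3, by positivity, fun K₀ L => ?_⟩
  obtain ⟨K, hK⟩ : ∃ K, K = K₀ + 1 := ⟨_, rfl⟩
  have hK0 : 0 < K := by omega
  obtain ⟨Λ, hΛ⟩ : ∃ Λ, Λ = 2 * H ^ 2 * K := ⟨_, rfl⟩
  have hΛ0 : 0 < Λ := by rw [hΛ]; positivity
  obtain ⟨r₀, hr₀, hpar⟩ := dense_params E hE H hH K hK0 Λ hΛ0 L
  refine ⟨r₀, ?_⟩
  intro V C _ _ _ π hL R W hr hW1 hW2 hdef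
  classical
  obtain ⟨f, g, l, h, t, q, gg, s, N, qb, Δ, p1, p2, p3, p4, p5, p6, p7, p8, p9, p10, p11, p12,
    p13, p14, p15⟩ := hpar _ hr
  clear hpar
  obtain ⟨r, hrdef⟩ : ∃ r, r = R.card := ⟨_, rfl⟩
  rw [← hrdef] at hr hW1 hW2 hdef
  have hr0 : 40 ≤ r := hr₀.trans hr
  have hr1 : 0 < r := lt_of_lt_of_le (by norm_num) hr0
  have hWK : W.card ≤ K * r := hW2.trans (Nat.mul_le_mul_right _ (hK ▸ Nat.le_succ _))
  obtain ⟨X, hXW, hXn, hleak, hexp⟩ := exists_piece (π := π) W R Λ (r / 10)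
    (Nat.div_le_of_le_mul hW1)
  rw [← hrdef] at hleak
  set B₀ := X.filter fun x => r < H * deg π x R Wᶜ with hB₀
  set B₁ := X.filter fun x => r < H * deg π x R (W \ X) with hB₁
  have hB₀c : 2 * H * B₀.card ≤ r := by
    have e1 : ∑ _x ∈ B₀, r ^ 2 ≤ ∑ x ∈ B₀, H ^ 2 * deg π x R Wᶜ ^ 2 := by
      refine sum_le_sum fun x hx => ?_
      rw [← mul_pow]
      exact Nat.pow_le_pow_left (mem_filter.1 hx).2.le 2
    rw [sum_const, smul_eq_mul, ← mul_sum] at e1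
    have e2 : ∑ x ∈ B₀, deg π x R Wᶜ ^ 2 ≤ ∑ x ∈ W, deg π x R Wᶜ ^ 2 :=
      sum_le_sum_of_subset ((filter_subset _ _).trans hXW)
    have e3 : (2 * H * B₀.card) * r ^ 2 ≤ r * r ^ 2 := by
      calc (2 * H * B₀.card) * r ^ 2 = 2 * H * (B₀.card * r ^ 2) := by ring
        _ ≤ 2 * H * (H ^ 2 * ∑ x ∈ W, deg π x R Wᶜ ^ 2) :=
          Nat.mul_le_mul_left _ (e1.trans (Nat.mul_le_mul_left _ e2))
        _ = 2 * H ^ 3 * ∑ x ∈ W, deg π x R Wᶜ ^ 2 := by ring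
        _ ≤ r ^ 3 := hdef
        _ = r * r ^ 2 := by ring
    exact Nat.le_of_mul_le_mul_right e3 (by positivity)
  have hB₁c : 2 * H * B₁.card ≤ r := by
    have e1 : ∑ _x ∈ B₁, r ≤ ∑ x ∈ B₁, H * deg π x R (W \ X) :=
      sum_le_sum fun x hx => (mem_filter.1 hx).2.le
    rw [sum_const, smul_eq_mul, ← mul_sum] at e1
    have e2 : ∑ x ∈ B₁, deg π x R (W \ X) ≤ ∑ x ∈ X, deg π x R (W \ X) :=
      sum_le_sum_of_subset (filter_subset _ _)
    have e3 : (2 * H * B₁.card) * (H * K * r) ≤ r * (H * K * r) := by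
      calc (2 * H * B₁.card) * (H * K * r) = Λ * (B₁.card * r) := by rw [hΛ]; ring
        _ ≤ Λ * (H * ∑ x ∈ X, deg π x R (W \ X)) :=
          Nat.mul_le_mul_left _ (e1.trans (Nat.mul_le_mul_left _ e2))
        _ = H * (Λ * ∑ x ∈ X, deg π x R (W \ X)) := by ring
        _ ≤ H * (r * (K * r)) :=
          Nat.mul_le_mul_left _ (hleak.trans (Nat.mul_le_mul_left _ hWK))
        _ = r * (H * K * r) := by ring
    exact Nat.le_of_mul_le_mul_right e3 (by positivity)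
  have hBc : H * (B₀ ∪ B₁).card ≤ r := by
    have := Nat.mul_le_mul_left H (card_union_le B₀ B₁)
    rw [mul_add] at this
    rw [mul_assoc] at hB₀c hB₁c
    clear * - this hB₀c hB₁c
    omega
  set Gd := X \ (B₀ ∪ B₁) with hGd
  have hGX : Gd ⊆ X := sdiff_subset
  have hGdef : ∀ x ∈ Gd, deg π x R Gdᶜ ≤ 3 * r / H := by
    intro x hx
    rw [Nat.le_div_iff_mul_le hH1]
    have e1 : deg π x R Gdᶜ ≤ deg π x R (Wᶜ ∪ (W \ X)) + deg π x R (B₀ ∪ B₁) := by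
      refine deg_le_add _ _ fun v hv => ?_
      simp only [hGd, mem_compl, mem_sdiff, mem_union] at hv ⊢
      tauto
    have e2 : deg π x R (Wᶜ ∪ (W \ X)) ≤ deg π x R Wᶜ + deg π x R (W \ X) :=
      deg_le_add _ _ fun v hv => mem_union.1 hv
    have e3 := deg_le_card hL x R (B₀ ∪ B₁)
    have hx' := mem_sdiff.1 hx
    have e4 : H * deg π x R Wᶜ ≤ r := by
      by_contra h'
      exact hx'.2 (mem_union_left _ (mem_filter.2 ⟨hx'.1, not_le.1 h'⟩))
    have e5 : H * deg π x R (W \ X) ≤ r := by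
      by_contra h'
      exact hx'.2 (mem_union_right _ (mem_filter.2 ⟨hx'.1, not_le.1 h'⟩))
    have e6 : H * deg π x R Gdᶜ ≤
        H * (deg π x R Wᶜ + deg π x R (W \ X) + (B₀ ∪ B₁).card) :=
      Nat.mul_le_mul_left _ (e1.trans (Nat.add_le_add e2 e3))
    rw [mul_add, mul_add] at e6
    rw [mul_comm]
    clear * - e4 e5 e6 hBc
    omega
  have hGne : Gd.Nonempty := by
    rw [← card_pos]
    have e1 : X.card - (B₀ ∪ B₁).card ≤ Gd.card := le_card_sdiff _ _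
    have e2 : 100 * (B₀ ∪ B₁).card ≤ H * (B₀ ∪ B₁).card := Nat.mul_le_mul_right _ hH0
    clear * - e1 e2 hBc hXn hr0
    omega
  obtain ⟨x₀, hx₀⟩ := hGne
  refine ⟨x₀, hXW (hGX hx₀), fun FV FC hFV hFC hx₀F => ?_⟩
  have hGc : Gd.card ≤ K * r := (card_le_card (hGX.trans hXW)).trans hWK
  subst hrdef
  obtain ⟨cs, hcs, hlen⟩ := dense_core hL X Gd R hGX K Λ (3 * R.card / H) (R.card / 10) f g l hΛ0
    ((card_le_card hXW).trans hWK) hGdef hexp p1 p2 p3 p4 p5 h t q (lt_of_le_of_lt hGc p6) p7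
    (hGc.trans p8) L gg s p9 p10 p11 N qb Δ p12 p13 p14 x₀ hx₀ FV FC hFV hFC hx₀F
  exact ⟨cs, hcs.mono (fun v hv => ⟨hXW hv.1, hv.2⟩) fun c hc => hc,
    p15.trans (Nat.add_le_add_right (Nat.mul_le_mul_left _ hlen) _)⟩

end Pool.Agent.P.MP_0c87c4_co.Asym
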