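import Pool.Agent.P.MP_0c87c4_co.ABasic

/-!
# The sparse case: cheap blocks
-/

set_option linter.unusedSectionVars false

namespace Pool.Agent.P.MP_0c87c4_co.Asym

open Finset

variable {V C : Type*} (π : C → Equiv.Perm V) [DecidableEq V] [DecidableEq C] [Fintype V]
  [Fintype C]

/-- second moment of the number of out-neighbours in `P` -/
def Phi (P : Finset V) : ℕ := ∑ w, deg π w univ P ^ 2

/-- the price of visiting `u` -/
def om (P : Finset V) (u : V) : ℕ := ∑ c, deg π ((π c).symm u) univ P

/-- vertices from which one is forced into `B` within `j` steps -/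
def trap (R : Finset C) (B : Finset V) : ℕ → Finset V
  | 0 => B
  | j + 1 => B ∪ univ.filter fun x => R.card ≤ 2 * deg π x R (trap R B j)

/-- the number of vertices of the walk lying in `B` -/
def cost (B : Finset V) (v : V) (q : List C) : ℕ := ((tl π v q).toFinset ∩ B).card

variable {π}

lemma om_le (P : Finset V) (u : V) : om π P u ≤ Fintype.card C ^ 2 := by
  unfold om
  calc _ ≤ ∑ _c : C, Fintype.card C := sum_le_sum fun c _ => deg_le_col _ _ _
    _ = _ := by simp [sq]

lemma sum_om_le (P : Finset V) : ∑ u, om π P u ≤ Fintype.card C ^ 2 * P.card := by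
  unfold om
  rw [sum_comm]
  calc ∑ c, ∑ u, deg π ((π c).symm u) univ P = ∑ _c : C, ∑ w, deg π w univ P :=
        sum_congr rfl fun c _ => Equiv.sum_comp (π c).symm fun w => deg π w univ P
    _ ≤ ∑ _c : C, P.card * Fintype.card C := sum_le_sum fun c _ => sum_deg_le _ _ _
    _ = _ := by simp; ring

lemma Phi_union (hL : ∀ x, Function.Injective fun c => π c x) (P Q : Finset V) (M : ℕ)
    (hQ : Q.card ≤ M) :
    Phi π (P ∪ Q) ≤ Phi π P + 2 * ∑ u ∈ Q, om π P u + M * (Q.card * Fintype.card C) := by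
  have h1 : ∑ w, deg π w univ P * deg π w univ Q = ∑ u ∈ Q, om π P u := by
    have e1 : ∀ w, deg π w univ P * deg π w univ Q =
        ∑ c, if π c w ∈ Q then deg π w univ P else 0 := by
      intro w
      rw [← sum_filter, sum_const, smul_eq_mul, mul_comm]
      rfl
    simp only [e1]
    unfold om
    rw [sum_comm, sum_comm (s := Q)]
    refine sum_congr rfl fun c _ => ?_
    rw [← Equiv.sum_comp (π c).symm]
    simp only [Equiv.apply_symm_apply]
    rw [← sum_filter, filter_mem_eq_inter, univ_inter]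
  have h2 : ∑ w, deg π w univ Q ≤ Q.card * Fintype.card C := sum_deg_le _ _ _
  have h3 : ∀ w, deg π w univ (P ∪ Q) ^ 2 ≤
      deg π w univ P ^ 2 + 2 * (deg π w univ P * deg π w univ Q) + M * deg π w univ Q := by
    intro w
    have e1 : deg π w univ (P ∪ Q) ≤ deg π w univ P + deg π w univ Q :=
      deg_le_add _ _ fun v hv => mem_union.1 hv
    have e2 : deg π w univ Q ≤ M := (deg_le_card hL _ _ _).trans hQ
    have e3 := Nat.pow_le_pow_left e1 2
    have e4 := Nat.mul_le_mul_right (deg π w univ Q) e2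
    nlinarith
  unfold Phi
  refine (sum_le_sum fun w _ => h3 w).trans ?_
  rw [sum_add_distrib, sum_add_distrib, ← mul_sum, ← mul_sum, h1]
  exact Nat.add_le_add_left (Nat.mul_le_mul_left _ h2) _

lemma subset_trap (R : Finset C) (B : Finset V) (j : ℕ) : B ⊆ trap π R B j := by
  cases j with
  | zero => exact Subset.rfl
  | succ j => exact subset_union_left

lemma card_trap (R : Finset C) (hR : 0 < R.card) (B : Finset V) (j : ℕ) :
    (trap π R B j).card + B.card ≤ 2 ^ (j + 1) * B.card := by
  induction j with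
  | zero => simp [trap]; omega
  | succ j ih =>
    set S := univ.filter fun x => R.card ≤ 2 * deg π x R (trap π R B j) with hS
    have e1 : ∑ _x ∈ S, R.card ≤ ∑ x ∈ S, 2 * deg π x R (trap π R B j) :=
      sum_le_sum fun x hx => (mem_filter.1 hx).2
    rw [sum_const, smul_eq_mul, ← mul_sum] at e1
    have e2 := sum_deg_le (π := π) S R (trap π R B j)
    have e3 : S.card * R.card ≤ (2 * (trap π R B j).card) * R.card := by nlinarith
    have e4 := Nat.le_of_mul_le_mul_right e3 hR
    have e5 : (trap π R B (j + 1)).card ≤ B.card + S.card := card_union_le _ _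
    rw [pow_succ, mul_comm _ 2, mul_assoc]
    omega

lemma cost_snoc_le (B : Finset V) (v : V) (q : List C) (c : C) :
    cost π B v (q ++ [c]) ≤ cost π B v q + 1 := by
  unfold cost
  rw [tl_snoc, List.toFinset_append, union_inter_distrib_right]
  refine (card_union_le _ _).trans (Nat.add_le_add_left ?_ _)
  exact (card_le_card inter_subset_left).trans (by simp)

lemma cost_snoc_of_notMem (B : Finset V) (v : V) (q : List C) (c : C)
    (h : π c (endp π v q) ∉ B) : cost π B v (q ++ [c]) ≤ cost π B v q := by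
  unfold cost
  rw [tl_snoc]
  refine card_le_card fun w hw => ?_
  simp only [List.toFinset_append, mem_inter, mem_union, List.mem_toFinset,
    List.mem_singleton] at hw ⊢
  rcases hw with ⟨hw | rfl, hB⟩
  · exact ⟨hw, hB⟩
  · exact absurd hB h

/-- the number of moves from the end of a short path which keep it a rainbow path -/
lemma deg_le_valid (hL : ∀ x, Function.Injective fun c => π c x) (R : Finset C) (P S N : Finset V)
    (v : V) (hv : v ∈ P) (hS : ∀ w ∈ S, w ∉ P) (q : List C)
    (hq : Pth π v q {w | w ∉ P} {c | c ∈ R})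
    (hN : ∀ c, π c (endp π v q) ∈ S → Pth π v (q ++ [c]) {w | w ∉ P} {c | c ∈ R} →
      π c (endp π v q) ∈ N) :
    deg π (endp π v q) R S ≤ 2 * q.length + deg π (endp π v q) R N := by
  set u := endp π v q with hu
  have hsub : (R.filter fun c => π c u ∈ S) ⊆ q.toFinset ∪
      (R.filter fun c => π c u ∈ (tl π v q).toFinset) ∪ R.filter fun c => π c u ∈ N := by
    intro c hc
    by_contra hno
    simp only [mem_union, mem_filter, not_or, not_and, List.mem_toFinset] at hc hno
    obtain ⟨⟨n1, n2⟩, n3⟩ := hno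
    refine n3 hc.1 (hN c hc.2 (hq.snoc hc.1 n1 (hS _ hc.2) (n2 hc.1) ?_))
    intro h
    exact hS _ hc.2 (h ▸ hv)
  have e1 := List.toFinset_card_le q
  have e2 : (R.filter fun c => π c u ∈ (tl π v q).toFinset).card ≤ q.length :=
    (deg_le_card hL u R _).trans ((List.toFinset_card_le _).trans (by simp))
  have e3 := card_union_le q.toFinset (R.filter fun c => π c u ∈ (tl π v q).toFinset)
  refine (card_le_card hsub).trans ((card_union_le _ _).trans ?_)
  exact Nat.add_le_add_right (by omega) _

lemma free_walk (hL : ∀ x, Function.Injective fun c => π c x) (R : Finset C) (P B : Finset V)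
    (hPB : P ⊆ B) (v : V) (hv : v ∈ P) (j : ℕ) (q : List C)
    (hq : Pth π v q {w | w ∉ P} {c | c ∈ R}) (hend : endp π v q ∉ trap π R B (j + 1))
    (hr : 4 * (q.length + j) ≤ R.card) :
    ∃ q', q'.length = q.length + j ∧ Pth π v q' {w | w ∉ P} {c | c ∈ R} ∧
      cost π B v q' ≤ cost π B v q ∧ endp π v q' ∉ trap π R B 1 := by
  classical
  induction j generalizing q with
  | zero => exact ⟨q, rfl, hq, le_rfl, hend⟩
  | succ j ih =>
    have h1 : 2 * deg π (endp π v q) R (trap π R B (j + 1)) < R.card := by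
      by_contra h
      exact hend (mem_union_right _ (mem_filter.2 ⟨mem_univ _, not_lt.1 h⟩))
    have h2 := deg_add_compl (π := π) (endp π v q) R (trap π R B (j + 1))
    by_contra hno
    have h3 := deg_le_valid hL R P (trap π R B (j + 1))ᶜ ∅ v hv
      (fun w hw hP => mem_compl.1 hw (subset_trap R B _ (hPB hP))) q hq (by
        intro c hc hp
        exfalso
        have hc' := mem_compl.1 hc
        obtain ⟨q', e1, e2, e3, e4⟩ := ih (q ++ [c]) hp (by rwa [endp_snoc]) (by simp; omega)
        refine hno ⟨q', by simp at e1; omega, e2, e3.trans (cost_snoc_of_notMem B v q c ?_), e4⟩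
        exact fun h => hc' (subset_trap R B _ h))
    have h4 : deg π (endp π v q) R ∅ = 0 := by simp [deg]
    omega

lemma bfs (hL : ∀ x, Function.Injective fun c => π c x) (R : Finset C) (P B : Finset V)
    (v : V) (hv : v ∈ P) (hdeg : R.card ≤ 10 * deg π v R Pᶜ) (G K M δ n k₀ : ℕ)
    (hn : n + 1 ≤ M) (hK : K * R.card < n * δ) (hB : B.card < k₀ * δ)
    (hδ : G * (2 * δ + 2 * M * K) ≤ R.card)
    (hA : ∀ W : Finset V, (∀ w ∈ W, w ∉ P ∧ ∃ q, q.length ≤ M ∧
        Pth π v q {w | w ∉ P} {c | c ∈ R} ∧ endp π v q = w) → R.card ≤ 10 * W.card →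
        W.card ≤ K * R.card → R.card ^ 2 < G * ∑ x ∈ W, deg π x R (W ∪ P)ᶜ) :
    ∃ W : Finset V, K * R.card < W.card ∧ ∀ w ∈ W, ∃ q, q.length ≤ n + 1 ∧ cost π B v q ≤ k₀ ∧
      Pth π v q {w | w ∉ P} {c | c ∈ R} ∧ endp π v q = w := by
  classical
  have key : ∀ i ≤ n, ∃ (W : Finset V) (k : ℕ), (∀ w ∈ W, w ∉ P ∧ ∃ q, q.length ≤ i + 1 ∧
      cost π B v q ≤ k + 1 ∧ Pth π v q {w | w ∉ P} {c | c ∈ R} ∧ endp π v q = w) ∧
      R.card ≤ 10 * W.card ∧ k * δ ≤ (W ∩ B).card ∧ (K * R.card < W.card ∨ i * δ ≤ W.card) := by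
    intro i
    induction i with
    | zero =>
      intro _
      refine ⟨(R.filter fun c => π c v ∈ Pᶜ).image fun c => π c v, 0, ?_, ?_, by simp,
        Or.inr (by simp)⟩
      · intro w hw
        obtain ⟨c, hc, rfl⟩ := mem_image.1 hw
        have hc' := mem_filter.1 hc
        have hP := mem_compl.1 hc'.2
        refine ⟨hP, [c], by simp, ?_, ?_, rfl⟩
        · exact (cost_snoc_le B v [] c).trans (by simp [cost])
        · exact (Pth.nil v _ _).snoc hc'.1 (by simp) hP (by simp)
            fun h => hP (by rw [show π c v = v from h]; exact hv)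
      · rwa [card_image_deg hL]
    | succ i ih =>
      intro hi
      obtain ⟨W, k, hW, h1, h2, h3⟩ := ih (by omega)
      by_cases hbig : K * R.card < W.card
      · refine ⟨W, k, fun w hw => ?_, h1, h2, Or.inl hbig⟩
        obtain ⟨hP, q, e1, e2⟩ := hW w hw
        exact ⟨hP, q, by omega, e2⟩
      have h3 := h3.resolve_left hbig
      have h4 := hA W (fun w hw => by
        obtain ⟨hP, q, e1, -, e2⟩ := hW w hw
        exact ⟨hP, q, by omega, e2⟩) h1 (not_lt.1 hbig)
      set N := (W ∪ P)ᶜ.filter fun w => ∃ q c, q.length ≤ i + 1 ∧ cost π B v q ≤ k + 1 ∧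
        Pth π v (q ++ [c]) {w | w ∉ P} {c | c ∈ R} ∧ π c (endp π v q) = w with hN
      have h5 : ∑ x ∈ W, deg π x R (W ∪ P)ᶜ ≤ ∑ x ∈ W, (2 * M + deg π x R N) := by
        refine sum_le_sum fun x hx => ?_
        obtain ⟨-, q, e1, e2, e3, rfl⟩ := hW x hx
        refine (deg_le_valid hL R P (W ∪ P)ᶜ N v hv
          (fun w hw hP => mem_compl.1 hw (mem_union_right _ hP)) q e3
          fun c hc hp => mem_filter.2 ⟨hc, q, c, e1, e2, hp, rfl⟩).trans ?_
        exact Nat.add_le_add_right (by omega) _
      rw [sum_add_distrib, sum_const, smul_eq_mul] at h5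
      have h6 := sum_deg_le (π := π) W R N
      have h7 : 2 * δ < N.card := by
        have e1 : W.card * (2 * M) ≤ K * R.card * (2 * M) :=
          Nat.mul_le_mul_right _ (not_lt.1 hbig)
        have e2 : G * ∑ x ∈ W, deg π x R (W ∪ P)ᶜ ≤
            G * (K * R.card * (2 * M) + N.card * R.card) := Nat.mul_le_mul_left _ (by omega)
        have e3 := Nat.mul_le_mul_right R.card hδ
        have e4 : (G * R.card) * (2 * δ) < (G * R.card) * N.card := by nlinarith
        exact lt_of_mul_lt_mul_left e4 (Nat.zero_le _)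
      have hNW : ∀ w ∈ N, w ∉ W ∧ w ∉ P := fun w hw => by
        have := mem_compl.1 (mem_filter.1 hw).1
        rwa [mem_union, not_or] at this
      have h8 : (N \ B).card + (N ∩ B).card = N.card := card_sdiff_add_card_inter _ _
      by_cases hfree : δ ≤ (N \ B).card
      · have hdisj : Disjoint W (N \ B) :=
          disjoint_right.2 fun w hw => (hNW w (mem_sdiff.1 hw).1).1
        have hc := card_union_of_disjoint hdisj
        refine ⟨W ∪ (N \ B), k, fun w hw => ?_, by omega, ?_, Or.inr ?_⟩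
        · rcases mem_union.1 hw with hw | hw
          · obtain ⟨hP, q, e1, e2⟩ := hW w hw
            exact ⟨hP, q, by omega, e2⟩
          · obtain ⟨hwN, hwB⟩ := mem_sdiff.1 hw
            obtain ⟨-, q, c, e1, e2, e3, rfl⟩ := mem_filter.1 hwN
            exact ⟨(hNW _ hwN).2, q ++ [c], by simp; omega,
              (cost_snoc_of_notMem B v q c hwB).trans e2, e3, endp_snoc _ _ _⟩
        · exact h2.trans (card_le_card (inter_subset_inter subset_union_left Subset.rfl))
        · rw [add_mul, one_mul]; omega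
      · have hdisj : Disjoint W (N ∩ B) :=
          disjoint_right.2 fun w hw => (hNW w (mem_inter.1 hw).1).1
        have hc := card_union_of_disjoint hdisj
        refine ⟨W ∪ (N ∩ B), k + 1, fun w hw => ?_, by omega, ?_, Or.inr ?_⟩
        · rcases mem_union.1 hw with hw | hw
          · obtain ⟨hP, q, e1, e2, e3⟩ := hW w hw
            exact ⟨hP, q, by omega, by omega, e3⟩
          · obtain ⟨hwN, hwB⟩ := mem_inter.1 hw
            obtain ⟨-, q, c, e1, e2, e3, rfl⟩ := mem_filter.1 hwN
            exact ⟨(hNW _ hwN).2, q ++ [c], by simp; omega,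
              (cost_snoc_le B v q c).trans (by omega), e3, endp_snoc _ _ _⟩
        · have e1 : (W ∩ B) ∪ (N ∩ B) ⊆ (W ∪ (N ∩ B)) ∩ B := by
            intro w hw
            simp only [mem_union, mem_inter] at hw ⊢
            tauto
          have e2 := card_le_card e1
          rw [card_union_of_disjoint (hdisj.mono_left inter_subset_left)] at e2
          rw [add_mul, one_mul]; omega
        · rw [add_mul, one_mul]; omega
  obtain ⟨W, k, hW, -, h2, h3⟩ := key n le_rfl
  refine ⟨W, by omega, fun w hw => ?_⟩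
  obtain ⟨-, q, e1, e2, e3⟩ := hW w hw
  have e4 : k * δ < k₀ * δ := lt_of_le_of_lt (h2.trans (card_le_card inter_subset_right)) hB
  have e5 : k < k₀ := lt_of_mul_lt_mul_right e4 (Nat.zero_le _)
  exact ⟨q, e1, by omega, e3⟩

/-- a cheap block -/
lemma block (hL : ∀ x, Function.Injective fun c => π c x) (R : Finset C) (P B : Finset V)
    (hPB : P ⊆ B) (v : V) (hv : v ∈ P) (hdeg : R.card ≤ 10 * deg π v R Pᶜ)
    (G K M δ n k₀ m : ℕ) (hn : n + 1 + m ≤ M) (hK : K * R.card < n * δ) (hB : B.card < k₀ * δ)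
    (hδ : G * (2 * δ + 2 * M * K) ≤ R.card) (hM : 4 * M < R.card)
    (hT : 2 ^ (m + 2) * B.card ≤ K * R.card)
    (hA : ∀ W : Finset V, (∀ w ∈ W, w ∉ P ∧ ∃ q, q.length ≤ M ∧
        Pth π v q {w | w ∉ P} {c | c ∈ R} ∧ endp π v q = w) → R.card ≤ 10 * W.card →
        W.card ≤ K * R.card → R.card ^ 2 < G * ∑ x ∈ W, deg π x R (W ∪ P)ᶜ) :
    ∃ q, m ≤ q.length ∧ q.length ≤ M ∧ cost π B v q ≤ k₀ ∧ Pth π v q {w | w ∉ P} {c | c ∈ R} ∧
      R.card < 2 * deg π (endp π v q) R Bᶜ := by
  obtain ⟨W, hW1, hW2⟩ := bfs hL R P B v hv hdeg G K M δ n k₀ (by omega) hK hB hδ hA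
  have h1 := card_trap (π := π) R (by omega) B (m + 1)
  have h2 : (trap π R B (m + 1)).card < W.card := by
    have : m + 1 + 1 = m + 2 := rfl
    rw [this] at h1
    omega
  obtain ⟨w, hwW, hwT⟩ := exists_mem_notMem_of_card_lt_card h2
  obtain ⟨q, e1, e2, e3, rfl⟩ := hW2 w hwW
  obtain ⟨q', f1, f2, f3, f4⟩ := free_walk hL R P B hPB v hv m q e3 hwT (by omega)
  refine ⟨q', by omega, by omega, f3.trans e2, f2, ?_⟩
  have h3 : 2 * deg π (endp π v q') R B < R.card := by
    by_contra h
    exact f4 (mem_union_right _ (mem_filter.2 ⟨mem_univ _, not_lt.1 h⟩))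
  have h4 := deg_add_compl (π := π) (endp π v q') R B
  omega

end Pool.Agent.P.MP_0c87c4_co.Asym
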