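import Pool.Agent.P.MP_0c87c4_co.ADense
import Pool.Agent.P.MP_0c87c4_co.ASparse

/-!
# Rainbow directed paths of length `(1 - o(1)) d`
-/

set_option linter.unusedSectionVars false

namespace Pool.Agent.P.MP_0c87c4_co.Asym

open Finset

lemma sparse_params (E G : ℕ) (hE : 0 < E) (hG : 0 < G) (Kp : ℕ) (hKp : 0 < Kp) :
    ∃ K M n k₀ m r₁ : ℕ, n + 1 + m ≤ M ∧ Kp * k₀ ≤ m ∧ 0 < m ∧ ∀ r b : ℕ, r₁ ≤ r →
      b ≤ (Kp + 1) * E * r → ∃ δ, K * r < n * δ ∧ b < k₀ * δ ∧
        4 * G * (2 * δ + 2 * M * K) ≤ r ∧ 5 * M < r ∧ 2 ^ (m + 2) * b ≤ K * r := by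
  obtain ⟨K₀, hK₀⟩ : ∃ K₀, K₀ = (Kp + 1) * E := ⟨_, rfl⟩
  have hK₀0 : 0 < K₀ := by rw [hK₀]; positivity
  obtain ⟨k₀, hk₀⟩ : ∃ k₀, k₀ = 32 * G * K₀ := ⟨_, rfl⟩
  have hk₀0 : 0 < k₀ := by rw [hk₀]; positivity
  obtain ⟨m, hm⟩ : ∃ m, m = Kp * k₀ := ⟨_, rfl⟩
  obtain ⟨K, hK⟩ : ∃ K, K = 2 ^ (m + 2) * K₀ := ⟨_, rfl⟩
  have hK0 : 0 < K := by rw [hK]; positivity
  obtain ⟨n, hn⟩ : ∃ n, n = 32 * G * K := ⟨_, rfl⟩
  obtain ⟨M, hM⟩ : ∃ M, M = n + 1 + m := ⟨_, rfl⟩
  refine ⟨K, M, n, k₀, m, 16 * G + 16 * (G * (M * K)) + 5 * M + 1, hM.ge, hm.ge,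
    by rw [hm]; positivity, fun r b hr hb => ⟨r / (16 * G), ?_⟩⟩
  rw [← hK₀] at hb
  obtain ⟨δ, hδ⟩ : ∃ δ, δ = r / (16 * G) := ⟨_, rfl⟩
  rw [← hδ]
  have b1 : 16 * G ≤ r := by omega
  have b2 : 16 * (G * (M * K)) ≤ r := by omega
  have b3 : 5 * M < r := by omega
  have h1 : 16 * G * δ ≤ r := by rw [hδ]; exact Nat.mul_div_le _ _
  have h2 : r < 16 * G * (δ + 1) := by rw [hδ]; exact Nat.lt_mul_div_succ _ (by positivity)
  have h3 : 1 ≤ δ := by rw [hδ, Nat.le_div_iff_mul_le (by positivity), one_mul]; exact b1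
  have h4 : r < 32 * G * δ := by
    calc r < 16 * G * (δ + 1) := h2
      _ ≤ 16 * G * (δ + δ) := Nat.mul_le_mul_left _ (Nat.add_le_add_left h3 _)
      _ = _ := by ring
  refine ⟨?_, ?_, ?_, b3, ?_⟩
  · calc K * r < K * (32 * G * δ) := Nat.mul_lt_mul_of_pos_left h4 hK0
      _ = n * δ := by rw [hn]; ring
  · calc b ≤ K₀ * r := hb
      _ < K₀ * (32 * G * δ) := Nat.mul_lt_mul_of_pos_left h4 hK₀0
      _ = k₀ * δ := by rw [hk₀]; ring
  · have e1 : 4 * G * (2 * δ + 2 * M * K) = 8 * (G * δ) + 8 * (G * (M * K)) := by ring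
    have e2 : 16 * G * δ = 16 * (G * δ) := by ring
    rw [e1]
    rw [e2] at h1
    clear * - h1 b2
    omega
  · rw [hK, mul_assoc]
    exact Nat.mul_le_mul_left _ hb

theorem main (E : ℕ) (hE : 0 < E) : ∃ d₀ : ℕ,
    ∀ (V C : Type) [Fintype V] [Fintype C] [DecidableEq V] [DecidableEq C]
      (π : C → Equiv.Perm V), (∀ x, Function.Injective fun c => π c x) →
      d₀ ≤ Fintype.card C → ∀ x₁ : V, ∃ cs, Pth π x₁ cs Set.univ Set.univ ∧
        E * Fintype.card C ≤ E * cs.length + Fintype.card C := by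
  obtain ⟨G, hG, hdense⟩ := dense E hE
  obtain ⟨Kp, hKp⟩ : ∃ Kp, Kp = 20 * G * E ^ 3 := ⟨_, rfl⟩
  have hKp0 : 0 < Kp := by rw [hKp]; positivity
  obtain ⟨K, M, n, k₀, m, r₁, hnM, hm, hm0, hpar⟩ := sparse_params E G hE hG Kp hKp0
  obtain ⟨r₀, hr₀⟩ := hdense K M
  refine ⟨E * (r₀ + r₁) + Kp * M + Kp + 2, ?_⟩
  intro V C _ _ _ _ π hL hd x₁
  classical
  obtain ⟨d, hdef⟩ : ∃ d, d = Fintype.card C := ⟨_, rfl⟩
  rw [← hdef] at hd ⊢
  have hd1 : E * (r₀ + r₁) ≤ d := by omega
  have hd2 : Kp * M ≤ d := by omega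
  have hd3 : Kp ≤ d := by omega
  have hd4 : 2 ≤ d := by omega
  clear hd
  have key : ∀ i : ℕ, ∃ cs, Pth π x₁ cs Set.univ Set.univ ∧ (E * d ≤ E * cs.length + d ∨
      (i ≤ cs.length ∧
        Kp * Phi π (x₁ :: tl π x₁ cs).toFinset ≤ 5 * d ^ 2 * (cs.length + 1) ∧
        cs.toFinsetᶜ.card ≤
          10 * deg π (endp π x₁ cs) cs.toFinsetᶜ (x₁ :: tl π x₁ cs).toFinsetᶜ)) := by
    intro i
    induction i with
    | zero =>
      refine ⟨[], Pth.nil _ _ _, Or.inr ⟨le_rfl, ?_, ?_⟩⟩
      · have e1 : Phi π (x₁ :: tl π x₁ []).toFinset ≤ d := by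
          unfold Phi
          have e2 := sum_deg_le (π := π) univ univ (x₁ :: tl π x₁ []).toFinset
          have e3 : (x₁ :: tl π x₁ []).toFinset.card = 1 := by simp
          rw [e3, one_mul, card_univ, ← hdef] at e2
          refine le_trans (sum_le_sum fun w _ => ?_) e2
          have e4 := deg_le_card hL w univ (x₁ :: tl π x₁ []).toFinset
          rw [e3] at e4
          rw [sq]
          exact (Nat.mul_le_mul_right _ e4).trans (by simp)
        calc Kp * Phi π (x₁ :: tl π x₁ []).toFinset ≤ d * d := Nat.mul_le_mul hd3 e1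
          _ ≤ 5 * d ^ 2 * (([] : List C).length + 1) := by simp; nlinarith
      · have e1 := deg_add_compl (π := π) (endp π x₁ []) ([] : List C).toFinsetᶜ
          (x₁ :: tl π x₁ []).toFinset
        have e2 := deg_le_card hL (endp π x₁ []) ([] : List C).toFinsetᶜ
          (x₁ :: tl π x₁ []).toFinset
        have e3 : (x₁ :: tl π x₁ []).toFinset.card = 1 := by simp
        have e4 : ([] : List C).toFinsetᶜ.card = d := by simp [hdef]
        omega
    | succ i ih =>
      obtain ⟨cs, hcs, h⟩ := ih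
      by_cases hdone : E * d ≤ E * cs.length + d
      · exact ⟨cs, hcs, Or.inl hdone⟩
      obtain ⟨hi, hΦ, hdeg⟩ := h.resolve_left hdone
      set P := (x₁ :: tl π x₁ cs).toFinset with hP
      set R := cs.toFinsetᶜ with hR
      set v := endp π x₁ cs with hv
      have hPc : P.card = cs.length + 1 := by
        rw [hP, List.toFinset_card_of_nodup (List.nodup_cons.2 ⟨hcs.hx, hcs.vn⟩)]
        simp
      have hRc : R.card + cs.length = d := by
        rw [hR, ← List.toFinset_card_of_nodup hcs.cn, hdef, add_comm]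
        exact card_add_card_compl _
      have hEr : d < E * R.card := by
        have : E * d = E * R.card + E * cs.length := by rw [← hRc, mul_add]
        omega
      have hr0 : r₀ + r₁ ≤ R.card := (lt_of_mul_lt_mul_left (lt_of_le_of_lt hd1 hEr)
        (Nat.zero_le _)).le
      have hRpos : 0 < R.card := by
        rcases Nat.eq_zero_or_pos R.card with h0 | h0
        · rw [h0] at hEr; omega
        · exact h0
      have hPd : P.card ≤ d := by omega
      have hvP : v ∈ P := by
        rw [hP, List.mem_toFinset, List.mem_cons]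
        exact endp_mem π x₁ cs
      have happ : ∀ q, Pth π v q {w | w ∉ P} {c | c ∈ R} →
          Pth π x₁ (cs ++ q) Set.univ Set.univ := by
        intro q hq
        refine hcs.append hq ?_ ?_ ?_ (fun _ _ => trivial) (fun _ _ => trivial)
          (fun _ _ => trivial) (fun _ _ => trivial)
        · intro c hc h'
          exact mem_compl.1 h' (List.mem_toFinset.2 hc)
        · intro w hw h'
          exact h' (List.mem_toFinset.2 (List.mem_cons_of_mem _ hw))
        · intro h'
          exact h' (List.mem_toFinset.2 List.mem_cons_self)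
      by_cases hA : ∀ W : Finset V, (∀ w ∈ W, w ∉ P ∧ ∃ q, q.length ≤ M ∧
          Pth π v q {w | w ∉ P} {c | c ∈ R} ∧ endp π v q = w) → R.card ≤ 10 * W.card →
          W.card ≤ K * R.card → R.card ^ 2 < 4 * G * ∑ x ∈ W, deg π x R (W ∪ P)ᶜ
      · -- a cheap block
        set B₁ := univ.filter fun u => d ^ 2 < Kp * om π P u with hB₁
        have hB₁c : B₁.card ≤ Kp * d := by
          have e1 : ∑ _u ∈ B₁, d ^ 2 ≤ ∑ u ∈ B₁, Kp * om π P u :=
            sum_le_sum fun u hu => (mem_filter.1 hu).2.le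
          rw [sum_const, smul_eq_mul, ← mul_sum] at e1
          have e2 : ∑ u ∈ B₁, om π P u ≤ ∑ u, om π P u := sum_le_sum_of_subset (subset_univ _)
          have e3 := sum_om_le (π := π) P
          rw [← hdef] at e3
          have e4 : B₁.card * d ^ 2 ≤ (Kp * d) * d ^ 2 := by
            calc B₁.card * d ^ 2 ≤ Kp * (d ^ 2 * d) :=
                e1.trans (Nat.mul_le_mul_left _ (e2.trans (e3.trans (Nat.mul_le_mul_left _ hPd))))
              _ = _ := by ring
          exact Nat.le_of_mul_le_mul_right e4 (by positivity)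
        have hBc : (P ∪ B₁).card ≤ (Kp + 1) * E * R.card := by
          calc (P ∪ B₁).card ≤ d + Kp * d := (card_union_le _ _).trans (Nat.add_le_add hPd hB₁c)
            _ = (Kp + 1) * d := by ring
            _ ≤ (Kp + 1) * (E * R.card) := Nat.mul_le_mul_left _ hEr.le
            _ = _ := by ring
        obtain ⟨δ, p1, p2, p3, p4, p5⟩ := hpar R.card (P ∪ B₁).card (by omega) hBc
        obtain ⟨q, q1, q2, q3, q4, q5⟩ := block hL R P (P ∪ B₁) subset_union_left v hvP hdeg
          (4 * G) K M δ n k₀ m hnM p1 p2 p3 (by omega) p5 hA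
        refine ⟨cs ++ q, happ q q4, Or.inr ⟨by simp; omega, ?_, ?_⟩⟩
        · set Q := (tl π v q).toFinset with hQ
          have hQc : Q.card = q.length := by
            rw [hQ, List.toFinset_card_of_nodup q4.vn]; simp
          have e0 : (x₁ :: tl π x₁ (cs ++ q)).toFinset = P ∪ Q := by
            rw [tl_append, ← List.cons_append, List.toFinset_append]
          rw [e0]
          have e1 := Phi_union hL P Q M (by omega)
          rw [← hdef, hQc] at e1
          have e2 : ∑ u ∈ Q, Kp * om π P u ≤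
              ∑ u ∈ Q, (d ^ 2 + if u ∈ P ∪ B₁ then Kp * d ^ 2 else 0) := by
            refine sum_le_sum fun u _ => ?_
            split_ifs with hu
            · have := om_le (π := π) P u
              rw [← hdef] at this
              exact (Nat.mul_le_mul_left _ this).trans (Nat.le_add_left _ _)
            · by_contra h'
              exact hu (mem_union_right _ (mem_filter.2 ⟨mem_univ _, by omega⟩))
          rw [← mul_sum, sum_add_distrib, sum_const, smul_eq_mul, ← sum_filter, sum_const,
            smul_eq_mul, filter_mem_eq_inter, hQc] at e2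
          have e3 : (Q ∩ (P ∪ B₁)).card * (Kp * d ^ 2) ≤ q.length * d ^ 2 := by
            calc (Q ∩ (P ∪ B₁)).card * (Kp * d ^ 2) ≤ k₀ * (Kp * d ^ 2) :=
                  Nat.mul_le_mul_right _ q3
              _ = (Kp * k₀) * d ^ 2 := by ring
              _ ≤ _ := Nat.mul_le_mul_right _ (hm.trans q1)
          have e4 : Kp * (M * (q.length * d)) ≤ q.length * d ^ 2 := by
            calc Kp * (M * (q.length * d)) = (Kp * M) * (q.length * d) := by ring
              _ ≤ d * (q.length * d) := Nat.mul_le_mul_right _ hd2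
              _ = _ := by ring
          have e5 := Nat.mul_le_mul_left Kp e1
          have e6 : 5 * d ^ 2 * ((cs ++ q).length + 1) =
              5 * d ^ 2 * (cs.length + 1) + 5 * (q.length * d ^ 2) := by
            rw [List.length_append]; ring
          have e7 : Kp * (Phi π P + 2 * ∑ u ∈ Q, om π P u + M * (q.length * d)) =
              Kp * Phi π P + 2 * (Kp * ∑ u ∈ Q, om π P u) + Kp * (M * (q.length * d)) := by ring
          rw [e6]
          rw [e7] at e5
          clear * - e2 e3 e4 e5 hΦ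
          omega
        · have e0 : (x₁ :: tl π x₁ (cs ++ q)).toFinset = P ∪ (tl π v q).toFinset := by
            rw [tl_append, ← List.cons_append, List.toFinset_append]
          have e1 : (cs ++ q).toFinsetᶜ = R \ q.toFinset := by
            ext c
            simp [hR]
          rw [e0, e1, endp_append, ← hv]
          have e2 := deg_le_sdiff (π := π) (endp π v q) R q.toFinset (P ∪ B₁)ᶜ
          have e3 : deg π (endp π v q) (R \ q.toFinset) (P ∪ B₁)ᶜ ≤
              deg π (endp π v q) (R \ q.toFinset) (P ∪ (tl π v q).toFinset)ᶜ +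
              deg π (endp π v q) (R \ q.toFinset) (tl π v q).toFinset := by
            refine deg_le_add _ _ fun w hw => ?_
            simp only [mem_compl, mem_union] at hw ⊢
            tauto
          have e4 : deg π (endp π v q) (R \ q.toFinset) (tl π v q).toFinset ≤ q.length :=
            (deg_le_card hL _ _ _).trans ((List.toFinset_card_le _).trans (by simp))
          have e5 := List.toFinset_card_le q
          have e6 : (R \ q.toFinset).card ≤ R.card := card_le_card sdiff_subset
          clear * - e2 e3 e4 e5 e6 q2 q5 p4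
          omega
      · -- a nearly closed set
        push Not at hA
        obtain ⟨W, hW1, hW2, hW3, hW4⟩ := hA
        have hdefW : G * ∑ x ∈ W, deg π x R Wᶜ ^ 2 ≤ R.card ^ 3 := by
          have e1 : ∑ x ∈ W, deg π x R Wᶜ ^ 2 ≤
              ∑ x ∈ W, (2 * (R.card * deg π x R (W ∪ P)ᶜ) + 2 * deg π x univ P ^ 2) := by
            refine sum_le_sum fun x _ => ?_
            have f1 : deg π x R Wᶜ ≤ deg π x R (W ∪ P)ᶜ + deg π x R P := by
              refine deg_le_add _ _ fun w hw => ?_
              simp only [mem_compl, mem_union] at hw ⊢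
              tauto
            have f2 : deg π x R P ≤ deg π x univ P := deg_mono _ (subset_univ _) Subset.rfl
            have f3 := Nat.mul_le_mul_right (deg π x R (W ∪ P)ᶜ) (deg_le_col (π := π) x R (W ∪ P)ᶜ)
            have f4 := Nat.pow_le_pow_left (f1.trans (Nat.add_le_add_left f2 _)) 2
            have f5 : ∀ a b : ℕ, (a + b) ^ 2 ≤ 2 * (a * a) + 2 * b ^ 2 := fun a b => by
              nlinarith [sq_nonneg ((a : ℤ) - b)]
            have f6 := f5 (deg π x R (W ∪ P)ᶜ) (deg π x univ P)
            clear * - f3 f4 f6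
            omega
          rw [sum_add_distrib, ← mul_sum, ← mul_sum, ← mul_sum] at e1
          have e2 : ∑ x ∈ W, deg π x univ P ^ 2 ≤ Phi π P := sum_le_sum_of_subset (subset_univ _)
          have e3 : 4 * G * Phi π P ≤ R.card ^ 3 := by
            have f1 : (4 * G * Phi π P) * (5 * E ^ 3) ≤ R.card ^ 3 * (5 * E ^ 3) := by
              calc (4 * G * Phi π P) * (5 * E ^ 3) = Kp * Phi π P := by rw [hKp]; ring
                _ ≤ 5 * d ^ 2 * d := hΦ.trans (Nat.mul_le_mul_left _ (hPc ▸ hPd))
                _ = 5 * d ^ 3 := by ring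
                _ ≤ 5 * (E * R.card) ^ 3 := Nat.mul_le_mul_left _ (Nat.pow_le_pow_left hEr.le 3)
                _ = _ := by ring
            exact Nat.le_of_mul_le_mul_right f1 (by positivity)
          have e4 := Nat.mul_le_mul_left R.card hW4
          have e5 := Nat.mul_le_mul_left (2 * G)
            (e1.trans (Nat.add_le_add_left (Nat.mul_le_mul_left 2 e2) _))
          have e6 : 2 * G * (2 * (R.card * ∑ x ∈ W, deg π x R (W ∪ P)ᶜ) + 2 * Phi π P) =
              R.card * (4 * G * ∑ x ∈ W, deg π x R (W ∪ P)ᶜ) + 4 * G * Phi π P := by ring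
          have e7 : R.card * R.card ^ 2 = R.card ^ 3 := by ring
          rw [e6, mul_assoc] at e5
          rw [e7] at e4
          clear * - e3 e4 e5
          omega
        obtain ⟨x₀, hx₀, hpath⟩ := hr₀ V C π hL R W (by omega) hW2 hW3 hdefW
        obtain ⟨hx₀P, q, q1, q2, q3⟩ := hW1 x₀ hx₀
        obtain ⟨cs', c1, c2⟩ := hpath ((tl π v q).toFinset.erase x₀) q.toFinset
          (card_erase_le.trans ((List.toFinset_card_le _).trans (by simpa using q1)))
          ((List.toFinset_card_le _).trans q1) (notMem_erase _ _)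
        have c3 : Pth π (endp π v q) cs' {w | w ∈ W ∧ w ∉ (tl π v q).toFinset}
            {c | c ∈ R ∧ c ∉ q.toFinset} := by
          rw [q3]
          refine ⟨c1.cn, c1.vn, c1.hx, c1.cm, fun w hw => ⟨(c1.vm w hw).1, fun h' => ?_⟩⟩
          refine (c1.vm w hw).2 (mem_erase.2 ⟨?_, h'⟩)
          rintro rfl
          exact c1.hx hw
        have c4 : Pth π v (q ++ cs') {w | w ∉ P} {c | c ∈ R} := by
          refine q2.append c3 ?_ ?_ ?_ (fun _ h => h) (fun w h => (hW1 w h.1).1) (fun _ h => h)
            (fun _ h => h.1)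
          · intro c hc h'
            exact h'.2 (List.mem_toFinset.2 hc)
          · intro w hw h'
            exact h'.2 (List.mem_toFinset.2 hw)
          · intro h'
            exact (hW1 v h'.1).1 hvP
        refine ⟨cs ++ (q ++ cs'), happ _ c4, Or.inl ?_⟩
        have e1 : E * d = E * R.card + E * cs.length := by rw [← hRc, mul_add]
        have e2 : E * (cs ++ (q ++ cs')).length =
            E * cs.length + E * q.length + E * cs'.length := by
          simp only [List.length_append]; ring
        clear * - e1 e2 c2 hRc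
        omega
  obtain ⟨cs, hcs, h⟩ := key d
  refine ⟨cs, hcs, ?_⟩
  rcases h with h | h
  · exact h
  · exact (Nat.mul_le_mul_left E h.1).trans (Nat.le_add_right _ _)

/-- the `i`-th vertex of the walk -/
lemma getElem_cons_tl {V C : Type*} (π : C → Equiv.Perm V) (x : V) (cs : List C) (i : ℕ)
    (hi : i < cs.length) :
    (x :: tl π x cs)[i + 1]'(by simpa using hi) =
      π cs[i] ((x :: tl π x cs)[i]'(by simp; omega)) := by
  induction cs generalizing x i with
  | nil => simp at hi
  | cons c cs ih =>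
    cases i with
    | zero => simp
    | succ i =>
      have := ih (π c x) i (by simpa using hi)
      simpa using this

end Pool.Agent.P.MP_0c87c4_co.Asym
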