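import Mathlib

namespace Pool.Agent.P.MP_0c87c4_co

open Finset

/-- counting lemma for unions of intervals with few removed points -/
lemma count_segments (h : ℕ) (hh : 3 ≤ h) (L : ℕ → Prop) [DecidablePred L] (I : Finset ℕ)
    (h1 : ∀ i ∈ I, ∀ s s', i < s → s ≤ i + h → i < s' → s' ≤ i + h → L s → L s' → s = s')
    (h2 : ∀ i ∈ I, ∀ i' ∈ I, ∀ s, i < s → s ≤ i + h → i' < s → s ≤ i' + h → L s → i = i')
    (m : ℕ) (hm : m ∈ I) (hmax : ∀ i ∈ I, i ≤ m) :
    I.card + h ≤ ((I.biUnion (fun i => Finset.Ioc i (i + h))).filter (fun s => ¬ L s)).card + 2 +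
      (if L (m + h) then 1 else 0) := by
  induction I using Finset.induction_on_max generalizing m with
  | empty => simp at hm
  | insert a I ha ih =>
    have haI : a ∉ I := fun h => lt_irrefl _ (ha a h)
    have hma : m = a := by
      rcases Finset.mem_insert.1 hm with h | h
      · exact h
      · exact absurd (hmax a (Finset.mem_insert_self _ _)) (not_le.2 (ha m h))
    subst hma
    have key : ∀ b, m ≤ b → b ≤ m + h →
        m + h - b ≤ ((Finset.Ioc b (m + h)).filter (fun s => ¬ L s)).card + 1 := by
      intro b hb hb'
      have e1 := Finset.card_filter_add_card_filter_not (s := Finset.Ioc b (m + h)) L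
      have e2 : ((Finset.Ioc b (m + h)).filter L).card ≤ 1 := by
        rw [Finset.card_le_one]
        intro s hs s' hs'
        simp only [Finset.mem_filter, Finset.mem_Ioc] at hs hs'
        exact h1 m hm s s' (by omega) hs.1.2 (by omega) hs'.1.2 hs.2 hs'.2
      rw [Nat.card_Ioc] at e1
      omega
    rw [Finset.card_insert_of_notMem haI, Finset.biUnion_insert]
    rcases I.eq_empty_or_nonempty with rfl | hne
    · have := key m le_rfl (by omega)
      simp only [Finset.card_empty, Finset.biUnion_empty, Finset.union_empty]
      omega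
    have hm' := I.max'_mem hne
    set m' := I.max' hne with hm'def
    have hlt : m' < m := ha _ hm'
    have ih' := ih (fun i hi => h1 i (Finset.mem_insert_of_mem hi))
      (fun i hi i' hi' => h2 i (Finset.mem_insert_of_mem hi) i' (Finset.mem_insert_of_mem hi'))
      m' hm' (fun i hi => I.le_max' i hi)
    have hdisj : ∀ b, m ≤ b → m' + h ≤ b →
        ((I.biUnion (fun i => Finset.Ioc i (i + h))).filter (fun s => ¬ L s)).card +
          ((Finset.Ioc b (m + h)).filter (fun s => ¬ L s)).card ≤
        ((Finset.Ioc m (m + h) ∪ I.biUnion (fun i => Finset.Ioc i (i + h))).filter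
          (fun s => ¬ L s)).card := by
      intro b hb hb'
      rw [← Finset.card_union_of_disjoint]
      · refine Finset.card_le_card ?_
        intro s hs
        simp only [Finset.mem_union, Finset.mem_filter, Finset.mem_Ioc] at hs ⊢
        rcases hs with hs | hs
        · exact ⟨Or.inr hs.1, hs.2⟩
        · exact ⟨Or.inl ⟨by omega, hs.1.2⟩, hs.2⟩
      · rw [Finset.disjoint_left]
        intro s hs hs'
        simp only [Finset.mem_filter, Finset.mem_Ioc, Finset.mem_biUnion] at hs hs'
        obtain ⟨⟨i, hi, -, hi2⟩, -⟩ := hs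
        have := I.le_max' i hi
        omega
    by_cases hgap : m' + h ≤ m
    · have e1 := hdisj m le_rfl hgap
      have e2 := key m le_rfl (by omega)
      split_ifs at ih' ⊢ <;> omega
    · have hnL : ¬ L (m' + h) := by
        intro hL
        have := h2 m hm m' (Finset.mem_insert_of_mem hm') (m' + h) (by omega) (by omega)
          (by omega) le_rfl hL
        omega
      rw [if_neg hnL] at ih'
      have e1 := hdisj (m' + h) (by omega) le_rfl
      have e2 := key (m' + h) (by omega) (by omega)
      split_ifs with hL
      · omega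
      · have : 1 ≤ ((Finset.Ioc (m' + h) (m + h)).filter (fun s => ¬ L s)).card :=
          Finset.card_pos.2 ⟨m + h, by simp [hL, hlt]⟩
        omega

end Pool.Agent.P.MP_0c87c4_co
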