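import Pool.Agent.P.MP_0c87c4_co.Count

namespace Pool.Agent.P.MP_0c87c4_co

open Finset

variable {V C : Type}

/-- rainbow paths, indexed by natural numbers up to `l` -/
structure RP (adj : V → V → Prop) (c : V → V → C) (l : ℕ) (p : ℕ → V) : Prop where
  inj : ∀ s ≤ l, ∀ t ≤ l, p s = p t → s = t
  edge : ∀ s < l, adj (p s) (p (s + 1))
  col : ∀ s < l, ∀ t < l, c (p s) (p (s + 1)) = c (p t) (p (t + 1)) → s = t

/-- colours used on a path -/
def Used (c : V → V → C) (l : ℕ) (p : ℕ → V) (x : C) : Prop :=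
  ∃ s < l, c (p s) (p (s + 1)) = x

variable {adj : V → V → Prop} {c : V → V → C} {l : ℕ} {p : ℕ → V}

lemma RP.rev (h : RP adj c l p) : RP (flip adj) (flip c) l (fun t => p (l - t)) := by
  refine ⟨fun s hs t ht e => ?_, fun s hs => ?_, fun s hs t ht e => ?_⟩
  · have := h.inj _ (Nat.sub_le _ _) _ (Nat.sub_le _ _) e
    omega
  · have := h.edge (l - (s + 1)) (by omega)
    rwa [show l - (s + 1) + 1 = l - s by omega] at this
  · have := h.col (l - (s + 1)) (by omega) (l - (t + 1)) (by omega) (by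
      rw [show l - (s + 1) + 1 = l - s by omega, show l - (t + 1) + 1 = l - t by omega]
      exact e)
    omega

lemma used_rev {x : C} (h : Used (flip c) l (fun t => p (l - t)) x) : Used c l p x := by
  obtain ⟨s, hs, e⟩ := h
  refine ⟨l - (s + 1), by omega, ?_⟩
  rw [show l - (s + 1) + 1 = l - s by omega]
  exact e

lemma RP.extend (h : RP adj c l p) {w : V} (hw : adj (p l) w) (hw' : ∀ s ≤ l, p s ≠ w)
    (hc : ¬ Used c l p (c (p l) w)) : RP adj c (l + 1) (fun t => if t ≤ l then p t else w) := by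
  refine ⟨fun s hs t ht e => ?_, fun s hs => ?_, fun s hs t ht e => ?_⟩
  · by_cases h1 : s ≤ l <;> by_cases h2 : t ≤ l <;> simp only [h1, h2, if_true, if_false] at e
    · exact h.inj s h1 t h2 e
    · exact absurd e (hw' s h1)
    · exact absurd e.symm (hw' t h2)
    · omega
  · by_cases h1 : s < l
    · simpa [h1.le, show s + 1 ≤ l from h1] using h.edge s h1
    · obtain rfl : s = l := by omega
      simpa using hw
  · by_cases h1 : s < l <;> by_cases h2 : t < l
    · simp only [h1.le, h2.le, show s + 1 ≤ l from h1, show t + 1 ≤ l from h2, if_true] at e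
      exact h.col s h1 t h2 e
    · obtain rfl : t = l := by omega
      simp only [h1.le, show s + 1 ≤ t from h1, if_true, le_refl, Nat.not_succ_le_self,
        if_false] at e
      exact absurd ⟨s, h1, e⟩ hc
    · obtain rfl : s = l := by omega
      simp only [h2.le, show t + 1 ≤ s from h2, if_true, le_refl, Nat.not_succ_le_self,
        if_false] at e
      exact absurd ⟨t, h2, e.symm⟩ hc
    · omega

/-- index permutation of the double rotation -/
def rot (l g i t : ℕ) : ℕ :=
  if t < l - i then i + 1 + t else if t ≤ l - g then g + t - (l - i) else t - (l - g + 1)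

lemma rot_step {g i : ℕ} (hg : 1 ≤ g) (hgi : g ≤ i) (hil : i < l) {t : ℕ} (ht : t < l) :
    (t = l - i - 1 ∧ rot l g i t = l ∧ rot l g i (t + 1) = g) ∨
    (t = l - g ∧ rot l g i t = i ∧ rot l g i (t + 1) = 0) ∨
    (t ≠ l - i - 1 ∧ t ≠ l - g ∧ rot l g i (t + 1) = rot l g i t + 1 ∧ rot l g i t < l ∧
      rot l g i t ≠ i ∧ rot l g i t ≠ g - 1) := by
  unfold rot
  split_ifs <;> omega

lemma rot_le {g i : ℕ} (hg : 1 ≤ g) (hgi : g ≤ i) (hil : i < l) {t : ℕ} (ht : t ≤ l) :
    rot l g i t ≤ l := by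
  unfold rot
  split_ifs <;> omega

lemma rot_inj {g i : ℕ} (hg : 1 ≤ g) (hgi : g ≤ i) (hil : i < l) {s t : ℕ} (hs : s ≤ l)
    (ht : t ≤ l) (e : rot l g i s = rot l g i t) : s = t := by
  unfold rot at e
  split_ifs at e <;> omega

lemma rot_last {g i : ℕ} (hg : 1 ≤ g) (hgi : g ≤ i) (hil : i < l) : rot l g i l = g - 1 := by
  unfold rot
  split_ifs <;> omega

lemma RP.rotate (h : RP adj c l p) {g i : ℕ} (hg : 1 ≤ g) (hgi : g ≤ i) (hil : i < l)
    (hb : adj (p l) (p g)) (ha : adj (p i) (p 0)) (hb' : ¬ Used c l p (c (p l) (p g)))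
    (ha' : ¬ Used c l p (c (p i) (p 0))) (hab : c (p i) (p 0) ≠ c (p l) (p g)) :
    RP adj c l (fun t => p (rot l g i t)) := by
  refine ⟨fun s hs t ht e => ?_, fun s hs => ?_, fun s hs t ht e => ?_⟩
  · exact rot_inj hg hgi hil hs ht (h.inj _ (rot_le hg hgi hil hs) _ (rot_le hg hgi hil ht) e)
  · rcases rot_step hg hgi hil hs with ⟨-, h1, h2⟩ | ⟨-, h1, h2⟩ | ⟨-, -, h1, h2, -⟩
    · simp only [h1, h2]; exact hb
    · simp only [h1, h2]; exact ha
    · simp only [h1]; exact h.edge _ h2
  · rcases rot_step hg hgi hil hs with ⟨h0, h1, h2⟩ | ⟨h0, h1, h2⟩ | ⟨-, -, h1, h2, -⟩ <;>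
    rcases rot_step hg hgi hil ht with ⟨k0, k1, k2⟩ | ⟨k0, k1, k2⟩ | ⟨-, -, k1, k2, -⟩ <;>
    simp only [h1, k1] at e
    · omega
    · rw [h2, k2] at e; exact absurd e.symm hab
    · rw [h2] at e; exact absurd ⟨_, k2, e.symm⟩ hb'
    · rw [h2, k2] at e; exact absurd e hab
    · omega
    · rw [h2] at e; exact absurd ⟨_, k2, e.symm⟩ ha'
    · rw [k2] at e; exact absurd ⟨_, h2, e⟩ hb'
    · rw [k2] at e; exact absurd ⟨_, h2, e⟩ ha'
    · exact rot_inj hg hgi hil hs.le ht.le (h.col _ h2 _ k2 e)

lemma used_rotate {g i : ℕ} (hg : 1 ≤ g) (hgi : g ≤ i) (hil : i < l) {x : C}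
    (h : Used c l (fun t => p (rot l g i t)) x) :
    x = c (p l) (p g) ∨ x = c (p i) (p 0) ∨
      ∃ s < l, s ≠ i ∧ s ≠ g - 1 ∧ c (p s) (p (s + 1)) = x := by
  obtain ⟨s, hs, e⟩ := h
  rcases rot_step hg hgi hil hs with ⟨-, h1, h2⟩ | ⟨-, h1, h2⟩ | ⟨-, -, h1, h2, h3, h4⟩
  · simp only [h1, h2] at e; exact Or.inl e.symm
  · simp only [h1, h2] at e; exact Or.inr (Or.inl e.symm)
  · simp only [h1] at e; exact Or.inr (Or.inr ⟨_, h2, h3, h4, e⟩)

open Classical in
lemma card_used_le [Fintype V] (hout : ∀ u v w, adj u v → adj u w → c u v = c u w → v = w)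
    (e : V) : (Finset.univ.filter (fun w => adj e w ∧ Used c l p (c e w))).card ≤ l := by
  have : (Finset.univ.filter (fun w => adj e w ∧ Used c l p (c e w))).card ≤
      ((Finset.range l).image (fun s => c (p s) (p (s + 1)))).card := by
    refine Finset.card_le_card_of_injOn (fun w => c e w) ?_ ?_
    · intro w hw
      simp only [Finset.coe_filter, Finset.mem_univ, true_and, Set.mem_ofPred_eq] at hw
      obtain ⟨-, s, hs, e⟩ := hw
      exact Finset.mem_coe.2 (Finset.mem_image.2 ⟨s, Finset.mem_range.2 hs, e⟩)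
    · intro v hv w hw e'
      simp only [Finset.coe_filter, Finset.mem_univ, true_and, Set.mem_ofPred_eq] at hv hw
      exact hout _ _ _ hv.1 hw.1 e'
  exact this.trans (Finset.card_image_le.trans (by simp))

/-- no end of a longest path sends an unused colour to the positions `1, ..., g - 1` -/
def Far (adj : V → V → Prop) (c : V → V → C) (l g : ℕ) : Prop :=
  ∀ p, RP adj c l p → ∀ t, 1 ≤ t → t < g → adj (p l) (p t) → Used c l p (c (p l) (p t))

open Classical in
/-- the set of positions hit by unused colours from the end is large -/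
lemma card_end_ge [Fintype V] {d : ℕ} (hirr : ∀ v, ¬ adj v v)
    (hout : ∀ u v w, adj u v → adj u w → c u v = c u w → v = w)
    (hdeg : ∀ v, d ≤ (Finset.univ.filter (fun w => adj v w)).card)
    (hmax : ∀ q, ¬ RP adj c (l + 1) q) (h : RP adj c l p) :
    d ≤ l + 1 + ((Finset.Ico 1 l).filter
      (fun t => adj (p l) (p t) ∧ ¬ Used c l p (c (p l) (p t)))).card := by
  have h1 := hdeg (p l)
  have h2 := card_used_le (l := l) (p := p) hout (p l)
  have h3 : Finset.univ.filter (fun w => adj (p l) w) ⊆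
      Finset.univ.filter (fun w => adj (p l) w ∧ Used c l p (c (p l) w)) ∪
        insert (p 0) (((Finset.Ico 1 l).filter
          (fun t => adj (p l) (p t) ∧ ¬ Used c l p (c (p l) (p t)))).image p) := by
    intro w hw
    simp only [Finset.mem_filter, Finset.mem_univ, true_and] at hw
    by_cases hu : Used c l p (c (p l) w)
    · exact Finset.mem_union_left _ (by simp [hw, hu])
    refine Finset.mem_union_right _ ?_
    by_contra hcon
    refine hmax _ (h.extend hw ?_ hu)
    rintro s hs rfl
    apply hcon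
    rcases Nat.eq_zero_or_pos s with rfl | hs0
    · exact Finset.mem_insert_self _ _
    · have hsl : s ≠ l := by rintro rfl; exact hirr _ hw
      exact Finset.mem_insert_of_mem (Finset.mem_image_of_mem _
        (Finset.mem_filter.2 ⟨Finset.mem_Ico.2 ⟨hs0, by omega⟩, hw, hu⟩))
  have h4 := (Finset.card_le_card h3).trans (Finset.card_union_le _ _)
  have h5 := Finset.card_insert_le (p 0) (((Finset.Ico 1 l).filter
          (fun t => adj (p l) (p t) ∧ ¬ Used c l p (c (p l) (p t)))).image p)
  have h6 := Finset.card_image_le (s := (Finset.Ico 1 l).filter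
          (fun t => adj (p l) (p t) ∧ ¬ Used c l p (c (p l) (p t)))) (f := p)
  omega

open Classical in
lemma key [Fintype V] {d g : ℕ} (hirr : ∀ v, ¬ adj v v)
    (hout : ∀ u v w, adj u v → adj u w → c u v = c u w → v = w)
    (hin : ∀ u v w, adj v u → adj w u → c v u = c w u → v = w)
    (hdo : ∀ v, d ≤ (Finset.univ.filter (fun w => adj v w)).card)
    (hdi : ∀ v, d ≤ (Finset.univ.filter (fun w => adj w v)).card)
    (hmax : ∀ q, ¬ RP adj c (l + 1) q) (hf : Far adj c l g) (hf' : Far (flip adj) (flip c) l g)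
    (h : RP adj c l p) (hg : 1 ≤ g) (hgl : g < l) (hb : adj (p l) (p g))
    (hb' : ¬ Used c l p (c (p l) (p g))) : 2 * d ≤ 3 * l + 6 := by
  have hmax' : ∀ q, ¬ RP (flip adj) (flip c) (l + 1) q := fun q hq => hmax _ hq.rev
  set I := (Finset.Ico 1 l).filter
    (fun i => adj (p i) (p 0) ∧ ¬ Used c l p (c (p i) (p 0))) with hI
  have hIc : d ≤ l + 1 + I.card := by
    have h1 := card_end_ge (adj := flip adj) (c := flip c) hirr hin hdi hmax' h.rev
    refine h1.trans (Nat.add_le_add_left ?_ _)
    refine Finset.card_le_card_of_injOn (fun t => l - t) ?_ ?_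
    · intro t ht
      simp only [Finset.coe_filter, Finset.mem_Ico, Set.mem_ofPred_eq, Nat.sub_self, flip] at ht
      simp only [hI, Finset.coe_filter, Finset.mem_Ico, Set.mem_ofPred_eq]
      refine ⟨by omega, ht.2.1, fun hu => ht.2.2 ?_⟩
      apply used_rev (c := flip c)
      obtain ⟨s, hs, e⟩ := hu
      refine ⟨s, hs, ?_⟩
      simp only [flip]
      rw [show l - (l - s) = s by omega, show l - (l - (s + 1)) = s + 1 by omega]
      exact e
    · intro s hs t ht e
      simp only [Finset.coe_filter, Finset.mem_Ico, Set.mem_ofPred_eq] at hs ht e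
      omega
  have hImem : ∀ i ∈ I, 1 ≤ i ∧ i < l ∧ adj (p i) (p 0) ∧ ¬ Used c l p (c (p i) (p 0)) := by
    intro i hi
    simp only [hI, Finset.mem_filter, Finset.mem_Ico] at hi
    exact ⟨hi.1.1, hi.1.2, hi.2⟩
  have hIg : ∀ i ∈ I, i + g ≤ l := by
    intro i hi
    obtain ⟨h1, h2, h3, h4⟩ := hImem i hi
    by_contra hcon
    apply h4
    have := hf' _ h.rev (l - i) (by omega) (by omega) (by
      simp only [flip, Nat.sub_self]
      rwa [show l - (l - i) = i by omega])
    simp only [flip, Nat.sub_self] at this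
    rw [show l - (l - i) = i by omega] at this
    exact used_rev this
  have hIle : I.card + g ≤ l := by
    have : I ⊆ Finset.Icc 1 (l - g) := by
      intro i hi
      have := hIg i hi
      have := (hImem i hi).1
      exact Finset.mem_Icc.2 ⟨by omega, by omega⟩
    have := Finset.card_le_card this
    rw [Nat.card_Icc] at this
    omega
  set I' := I.filter (fun i => g ≤ i ∧ c (p i) (p 0) ≠ c (p l) (p g)) with hI'
  have hainj : ∀ i ∈ I, ∀ i' ∈ I, c (p i) (p 0) = c (p i') (p 0) → i = i' := by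
    intro i hi i' hi' e
    exact h.inj _ (hImem i hi).2.1.le _ (hImem i' hi').2.1.le
      (hin _ _ _ (hImem i hi).2.2.1 (hImem i' hi').2.2.1 e)
  have hI'c : I.card ≤ I'.card + g := by
    have h1 : I ⊆ I' ∪ (Finset.Ico 1 g ∪ I.filter (fun i => c (p i) (p 0) = c (p l) (p g))) := by
      intro i hi
      by_cases h1 : g ≤ i
      · by_cases h2 : c (p i) (p 0) = c (p l) (p g)
        · exact Finset.mem_union_right _ (Finset.mem_union_right _ (Finset.mem_filter.2 ⟨hi, h2⟩))
        · exact Finset.mem_union_left _ (Finset.mem_filter.2 ⟨hi, h1, h2⟩)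
      · exact Finset.mem_union_right _ (Finset.mem_union_left _
          (Finset.mem_Ico.2 ⟨(hImem i hi).1, by omega⟩))
    have h2 : (I.filter (fun i => c (p i) (p 0) = c (p l) (p g))).card ≤ 1 := by
      rw [Finset.card_le_one]
      intro i hi i' hi'
      rw [Finset.mem_filter] at hi hi'
      exact hainj i hi.1 i' hi'.1 (hi.2.trans hi'.2.symm)
    have h3 := (Finset.card_le_card h1).trans (Finset.card_union_le _ _)
    have h4 := Finset.card_union_le (Finset.Ico 1 g)
      (I.filter (fun i => c (p i) (p 0) = c (p l) (p g)))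
    rw [Nat.card_Ico] at h4
    omega
  by_cases hr : I'.card ≤ 1
  · omega
  have hI'I : ∀ i ∈ I', i ∈ I := fun i hi => (Finset.mem_filter.1 hi).1
  have hq : ∀ i ∈ I', RP adj c l (fun t => p (rot l g i t)) := by
    intro i hi
    obtain ⟨h0, h1, h2⟩ := Finset.mem_filter.1 hi
    obtain ⟨-, h4, h5, h6⟩ := hImem i h0
    exact h.rotate hg h1 h4 hb h5 hb' h6 h2
  have hF1 : ∀ w, adj (p (g - 1)) w → (∀ s ≤ l, p s ≠ w) → ∀ i ∈ I',
      c (p (g - 1)) w = c (p l) (p g) ∨ c (p (g - 1)) w = c (p i) (p 0) ∨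
        ∃ s < l, s ≠ i ∧ s ≠ g - 1 ∧ c (p s) (p (s + 1)) = c (p (g - 1)) w := by
    intro w hw hw' i hi
    have h1 := (Finset.mem_filter.1 hi).2.1
    have h4 := (hImem i (hI'I i hi)).2.1
    apply used_rotate hg h1 h4
    by_contra hu
    refine hmax _ ((hq i hi).extend (w := w) ?_ ?_ ?_)
    · simp only [rot_last hg h1 h4]; exact hw
    · intro s hs; exact hw' _ (rot_le hg h1 h4 hs)
    · simp only [rot_last hg h1 h4]; exact hu
  have hF1' : ∀ w, adj (p (g - 1)) w → (∀ s ≤ l, p s ≠ w) →
      c (p (g - 1)) w = c (p l) (p g) ∨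
        ∃ s < l, s ∉ I' ∧ s ≠ g - 1 ∧ c (p s) (p (s + 1)) = c (p (g - 1)) w := by
    intro w hw hw'
    by_cases hxb : c (p (g - 1)) w = c (p l) (p g)
    · exact Or.inl hxb
    right
    have hu : ∃ s < l, s ≠ g - 1 ∧ c (p s) (p (s + 1)) = c (p (g - 1)) w := by
      obtain ⟨i, hi, i', hi', hne⟩ := Finset.one_lt_card.1 (not_le.1 hr)
      rcases hF1 w hw hw' i hi with h1 | h1 | ⟨s, hs, -, h1⟩
      · exact absurd h1 hxb
      · rcases hF1 w hw hw' i' hi' with h2 | h2 | ⟨s, hs, -, h2⟩
        · exact absurd h2 hxb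
        · exact absurd (hainj i (hI'I i hi) i' (hI'I i' hi') (h1.symm.trans h2)) hne
        · exact ⟨s, hs, h2⟩
      · exact ⟨s, hs, h1⟩
    obtain ⟨s, hs, hs1, hs2⟩ := hu
    refine ⟨s, hs, fun hsI => ?_, hs1, hs2⟩
    rcases hF1 w hw hw' s hsI with h1 | h1 | ⟨s', hs', h1, -, h2⟩
    · exact hxb h1
    · exact (hImem s (hI'I s hsI)).2.2.2 ⟨s, hs, hs2.trans h1⟩
    · exact h1 (h.col _ hs' _ hs (h2.trans hs2.symm))
  by_cases hg3 : g ≤ 3
  · have h1 := hdo (p (g - 1))
    have h2 : Finset.univ.filter (fun w => adj (p (g - 1)) w) ⊆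
        ((Finset.range (l + 1)).erase (g - 1)).image p ∪
          Finset.univ.filter (fun w => adj (p (g - 1)) w ∧ ∀ s ≤ l, p s ≠ w) := by
      intro w hw
      simp only [Finset.mem_filter, Finset.mem_univ, true_and] at hw
      by_cases hw' : ∀ s ≤ l, p s ≠ w
      · exact Finset.mem_union_right _ (by simpa [hw] using hw')
      · push Not at hw'
        obtain ⟨s, hs, rfl⟩ := hw'
        refine Finset.mem_union_left _ (Finset.mem_image_of_mem _ (Finset.mem_erase.2 ⟨?_, ?_⟩))
        · rintro rfl; exact hirr _ hw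
        · exact Finset.mem_range.2 (by omega)
    have h3 : (Finset.univ.filter (fun w => adj (p (g - 1)) w ∧ ∀ s ≤ l, p s ≠ w)).card ≤
        (insert (c (p l) (p g)) ((((Finset.range l).erase (g - 1)) \ I').image
          (fun s => c (p s) (p (s + 1))))).card := by
      refine Finset.card_le_card_of_injOn (fun w => c (p (g - 1)) w) ?_ ?_
      · intro w hw
        simp only [Finset.coe_filter, Finset.mem_univ, true_and, Set.mem_ofPred_eq] at hw
        rcases hF1' w hw.1 hw.2 with h4 | ⟨s, hs, h4, h5, h6⟩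
        · simp [h4]
        · refine Finset.mem_coe.2 (Finset.mem_insert_of_mem (Finset.mem_image.2 ⟨s, ?_, h6⟩))
          simp [hs, h4, h5]
      · intro v hv w hw e'
        simp only [Finset.coe_filter, Finset.mem_univ, true_and, Set.mem_ofPred_eq] at hv hw
        exact hout _ _ _ hv.1 hw.1 e'
    have h4 := Finset.card_insert_le (c (p l) (p g)) ((((Finset.range l).erase (g - 1)) \ I').image
          (fun s => c (p s) (p (s + 1))))
    have h5 := Finset.card_image_le (s := ((Finset.range l).erase (g - 1)) \ I')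
      (f := fun s => c (p s) (p (s + 1)))
    have h6 : I' ⊆ (Finset.range l).erase (g - 1) := by
      intro i hi
      have := (Finset.mem_filter.1 hi).2.1
      exact Finset.mem_erase.2 ⟨by omega, Finset.mem_range.2 (hImem i (hI'I i hi)).2.1⟩
    have h7 := Finset.card_sdiff_add_card_eq_card h6
    rw [Finset.card_erase_of_mem (Finset.mem_range.2 (by omega)), Finset.card_range] at h7
    have h8 := (Finset.card_le_card h2).trans (Finset.card_union_le _ _)
    have h9 := Finset.card_image_le (s := (Finset.range (l + 1)).erase (g - 1)) (f := p)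
    rw [Finset.card_erase_of_mem (Finset.mem_range.2 (by omega)), Finset.card_range] at h9
    omega
  set L : ℕ → Prop := fun s => adj (p (g - 1)) (p s) ∧ ¬ Used c l p (c (p (g - 1)) (p s)) ∧
    c (p (g - 1)) (p s) ≠ c (p l) (p g) with hL
  have hF2 : ∀ i ∈ I', ∀ s, i < s → s ≤ i + (g - 1) → L (s + 1) →
      c (p (g - 1)) (p (s + 1)) = c (p i) (p 0) := by
    intro i hi s hs1 hs2 hLs
    have h1 := (Finset.mem_filter.1 hi).2.1
    have h4 := (hImem i (hI'I i hi)).2.1
    have h5 := hIg i (hI'I i hi)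
    have e1 : rot l g i (s - i) = s + 1 := by
      unfold rot; rw [if_pos (by omega)]; omega
    have := hf _ (hq i hi) (s - i) (by omega) (by omega) (by
      simp only [rot_last hg h1 h4, e1]; exact hLs.1)
    simp only [rot_last hg h1 h4, e1] at this
    rcases used_rotate hg h1 h4 this with h6 | h6 | ⟨s', hs', -, -, h6⟩
    · exact absurd h6 hLs.2.2
    · exact h6
    · exact absurd ⟨s', hs', h6⟩ hLs.2.1
  have hne : I'.Nonempty := Finset.card_pos.1 (by omega)
  have hcount := count_segments (g - 1) (by omega) (fun s => L (s + 1)) I'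
    (fun i hi s s' h1 h2 h3 h4 h5 h6 => by
      have h7 := hIg i (hI'I i hi)
      have := h.inj _ (by omega) _ (by omega) (hout _ _ _ h5.1 h6.1
        ((hF2 i hi s h1 h2 h5).trans (hF2 i hi s' h3 h4 h6).symm))
      omega)
    (fun i hi i' hi' s h1 h2 h3 h4 h5 =>
      hainj i (hI'I i hi) i' (hI'I i' hi') ((hF2 i hi s h1 h2 h5).symm.trans (hF2 i' hi' s h3 h4 h5)))
    _ (I'.max'_mem hne) (fun i hi => I'.le_max' i hi)
  have hA : ((I'.biUnion (fun i => Finset.Ioc i (i + (g - 1)))).filter
      (fun s => ¬ L (s + 1))).card + 1 ≤ ((Finset.range (l + 1)).filter (fun s => ¬ L s)).card := by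
    rw [← Finset.card_image_of_injective _ (add_left_injective 1),
      ← Finset.card_insert_of_notMem (a := g - 1)]
    · refine Finset.card_le_card ?_
      intro s hs
      rcases Finset.mem_insert.1 hs with rfl | hs
      · exact Finset.mem_filter.2 ⟨Finset.mem_range.2 (by omega), fun h => hirr _ h.1⟩
      · obtain ⟨s', hs', rfl⟩ := Finset.mem_image.1 hs
        obtain ⟨h1, h2⟩ := Finset.mem_filter.1 hs'
        obtain ⟨i, hi, h3⟩ := Finset.mem_biUnion.1 h1
        have h4 := hIg i (hI'I i hi)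
        have h5 := Finset.mem_Ioc.1 h3
        exact Finset.mem_filter.2 ⟨Finset.mem_range.2 (by omega), h2⟩
    · intro hs
      obtain ⟨s', hs', e⟩ := Finset.mem_image.1 hs
      obtain ⟨h1, -⟩ := Finset.mem_filter.1 hs'
      obtain ⟨i, hi, h3⟩ := Finset.mem_biUnion.1 h1
      have h4 := (Finset.mem_filter.1 hi).2.1
      have h5 := Finset.mem_Ioc.1 h3
      omega
  have hB := Finset.card_filter_add_card_filter_not (s := Finset.range (l + 1)) L
  rw [Finset.card_range] at hB
  have hC : d ≤ l + 1 + ((Finset.range (l + 1)).filter L).card := by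
    have h1 := hdo (p (g - 1))
    have h2 := card_used_le (l := l) (p := p) hout (p (g - 1))
    have h3 : (Finset.univ.filter
        (fun w => adj (p (g - 1)) w ∧ c (p (g - 1)) w = c (p l) (p g))).card ≤ 1 := by
      rw [Finset.card_le_one]
      intro v hv w hw
      simp only [Finset.mem_filter, Finset.mem_univ, true_and] at hv hw
      exact hout _ _ _ hv.1 hw.1 (hv.2.trans hw.2.symm)
    have h4 : Finset.univ.filter (fun w => adj (p (g - 1)) w) ⊆
        Finset.univ.filter (fun w => adj (p (g - 1)) w ∧ Used c l p (c (p (g - 1)) w)) ∪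
          (Finset.univ.filter (fun w => adj (p (g - 1)) w ∧ c (p (g - 1)) w = c (p l) (p g)) ∪
            ((Finset.range (l + 1)).filter L).image p) := by
      intro w hw
      simp only [Finset.mem_filter, Finset.mem_univ, true_and] at hw
      by_cases hu : Used c l p (c (p (g - 1)) w)
      · exact Finset.mem_union_left _ (by simp [hw, hu])
      refine Finset.mem_union_right _ ?_
      by_cases hxb : c (p (g - 1)) w = c (p l) (p g)
      · exact Finset.mem_union_left _ (by simp [hw, hxb])
      refine Finset.mem_union_right _ ?_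
      by_cases hw' : ∀ s ≤ l, p s ≠ w
      · rcases hF1' w hw hw' with h4 | ⟨s, hs, -, -, h6⟩
        · exact absurd h4 hxb
        · exact absurd ⟨s, hs, h6⟩ hu
      · push Not at hw'
        obtain ⟨s, hs, rfl⟩ := hw'
        exact Finset.mem_image_of_mem _
          (Finset.mem_filter.2 ⟨Finset.mem_range.2 (by omega), hw, hu, hxb⟩)
    have h5 := (Finset.card_le_card h4).trans (Finset.card_union_le _ _)
    have h6 := Finset.card_union_le
      (Finset.univ.filter (fun w => adj (p (g - 1)) w ∧ c (p (g - 1)) w = c (p l) (p g)))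
      (((Finset.range (l + 1)).filter L).image p)
    have h7 := Finset.card_image_le (s := (Finset.range (l + 1)).filter L) (f := p)
    omega
  split_ifs at hcount <;> omega

open Classical in
theorem exists_long [Fintype V] [Nonempty V] {d : ℕ} (hirr : ∀ v, ¬ adj v v)
    (hout : ∀ u v w, adj u v → adj u w → c u v = c u w → v = w)
    (hin : ∀ u v w, adj v u → adj w u → c v u = c w u → v = w)
    (hdo : ∀ v, d ≤ (Finset.univ.filter (fun w => adj v w)).card)
    (hdi : ∀ v, d ≤ (Finset.univ.filter (fun w => adj w v)).card) :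
    ∃ l p, RP adj c l p ∧ 2 * d ≤ 3 * l + 6 := by
  have hbd : ∃ n, ∀ q, ¬ RP adj c n q := by
    refine ⟨Fintype.card V, fun q hq => ?_⟩
    have := Finset.card_le_card_of_injOn (s := Finset.range (Fintype.card V + 1))
      (t := Finset.univ) q (by simp) (fun s hs t ht e => hq.inj s
        (by simpa [Nat.lt_succ_iff] using hs) t (by simpa [Nat.lt_succ_iff] using ht) e)
    simp at this
  have h0 : Nat.find hbd ≠ 0 := by
    intro h0
    have := Nat.find_spec hbd
    rw [h0] at this
    exact this (fun _ => Classical.arbitrary V)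
      ⟨fun s hs t ht _ => by omega, fun s hs => by omega, fun s hs => by omega⟩
  obtain ⟨l, hl⟩ := Nat.exists_eq_succ_of_ne_zero h0
  have hmax : ∀ q, ¬ RP adj c (l + 1) q := by
    have := Nat.find_spec hbd
    rwa [hl] at this
  have hmax' : ∀ q, ¬ RP (flip adj) (flip c) (l + 1) q := fun q hq => hmax _ hq.rev
  obtain ⟨p, hp⟩ : ∃ p, RP adj c l p := by
    have := Nat.find_min hbd (m := l) (by omega)
    push Not at this
    exact this
  refine ⟨l, p, hp, ?_⟩
  have h1 := card_end_ge hirr hout hdo hmax hp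
  rcases ((Finset.Ico 1 l).filter
      (fun t => adj (p l) (p t) ∧ ¬ Used c l p (c (p l) (p t)))).eq_empty_or_nonempty with
    h2 | ⟨t, ht⟩
  · rw [h2, Finset.card_empty] at h1
    omega
  have hex : ∃ g, 1 ≤ g ∧ g < l ∧
      ((∃ q, RP adj c l q ∧ adj (q l) (q g) ∧ ¬ Used c l q (c (q l) (q g))) ∨
        ∃ q, RP (flip adj) (flip c) l q ∧ flip adj (q l) (q g) ∧
          ¬ Used (flip c) l q (flip c (q l) (q g))) := by
    simp only [Finset.mem_filter, Finset.mem_Ico] at ht
    exact ⟨t, ht.1.1, ht.1.2, Or.inl ⟨p, hp, ht.2⟩⟩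
  obtain ⟨hg1, hgl, hg⟩ := Nat.find_spec hex
  have hf : Far adj c l (Nat.find hex) := by
    intro q hq t ht1 ht2 ha
    by_contra hu
    exact Nat.find_min hex ht2 ⟨ht1, by omega, Or.inl ⟨q, hq, ha, hu⟩⟩
  have hf' : Far (flip adj) (flip c) l (Nat.find hex) := by
    intro q hq t ht1 ht2 ha
    by_contra hu
    exact Nat.find_min hex ht2 ⟨ht1, by omega, Or.inr ⟨q, hq, ha, hu⟩⟩
  rcases hg with ⟨q, hq, ha, hu⟩ | ⟨q, hq, ha, hu⟩
  · exact key hirr hout hin hdo hdi hmax hf hf' hq hg1 hgl ha hu
  · exact key (adj := flip adj) (c := flip c) hirr hin hout hdi hdo hmax' hf' hf hq hg1 hgl ha hu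

end Pool.Agent.P.MP_0c87c4_co
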